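import Pool.Agent.H28.MZ.Targets

/-!
Module RC of MP_9f0eeb_nt (positive proportion): Cauchy formula on a rectangle with a weight.
-/

set_option autoImplicit false

open Complex MeasureTheory Set

namespace Pool.Agent.H18.PZ

open Pool.Agent.H28.MZ

/-- the jump of the logarithm at a corner -/
lemma corner {w : ℂ} (h1 : 0 < w.re) (h2 : 0 < w.im) :
    Complex.log w - Complex.log (-I * w) = Real.pi / 2 * I := by
  have hw : w ≠ 0 := fun h => by rw [h] at h1; simp at h1
  have harg : 0 ≤ arg w := Complex.arg_nonneg_iff.2 h2.le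
  have harg2 : arg w ≤ Real.pi := Complex.arg_le_pi w
  have hpi := Real.pi_pos
  have h3 : Complex.log (-I * w) = Complex.log (-I) + Complex.log w := by
    refine Complex.log_mul (by simp) hw ?_
    rw [Complex.arg_neg_I]
    constructor <;> linarith
  rw [h3, Complex.log_neg_I]
  ring

/-- integral of `1/(s-ρ)` along a segment -/
lemma side (p q κ : ℂ) (a b : ℝ) (hab : a ≤ b)
    (h : ∀ t ∈ Icc a b, 0 < (κ * (p + t * q)).re) :
    q * ∫ t in a..b, 1 / (p + (t : ℂ) * q) =
      Complex.log (κ * (p + b * q)) - Complex.log (κ * (p + a * q)) := by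
  rw [← intervalIntegral.integral_const_mul]
  have hne : ∀ t ∈ Icc a b, κ * (p + (t : ℂ) * q) ≠ 0 := by
    intro t ht h0
    have := h t ht
    rw [h0] at this
    simp at this
  have hd : ∀ t ∈ uIcc a b, HasDerivAt (fun t : ℝ => Complex.log (κ * (p + (t : ℂ) * q)))
      (q * (1 / (p + (t : ℂ) * q))) t := by
    intro t ht
    rw [uIcc_of_le hab] at ht
    have h1 : HasDerivAt (fun t : ℝ => κ * (p + (t : ℂ) * q)) (κ * q) t := by
      have h2 : HasDerivAt (fun t : ℝ => (t : ℂ)) 1 t := Complex.ofRealCLM.hasDerivAt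
      have h3 := ((h2.mul_const q).const_add p).const_mul κ
      simpa using h3
    have h4 := h1.clog_real (Complex.mem_slitPlane_iff.2 (Or.inl (h t ht)))
    convert! h4 using 1
    have h5 := hne t ht
    have h6 : κ ≠ 0 := left_ne_zero_of_mul h5
    have h7 : p + (t : ℂ) * q ≠ 0 := right_ne_zero_of_mul h5
    field_simp
  rw [intervalIntegral.integral_eq_sub_of_hasDerivAt hd]
  apply ContinuousOn.intervalIntegrable
  rw [uIcc_of_le hab]
  apply ContinuousOn.mul continuousOn_const
  apply ContinuousOn.div continuousOn_const (by fun_prop)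
  intro t ht
  exact right_ne_zero_of_mul (hne t ht)

lemma rect_one (a b c d : ℝ) (ρ : ℂ) (h1 : a < ρ.re) (h2 : ρ.re < b) (h3 : c < ρ.im)
    (h4 : ρ.im < d) :
    (∫ x in a..b, 1 / ((x : ℂ) + c * I - ρ)) + I * (∫ t in c..d, 1 / ((b : ℂ) + t * I - ρ)) -
      (∫ x in a..b, 1 / ((x : ℂ) + d * I - ρ)) - I * (∫ t in c..d, 1 / ((a : ℂ) + t * I - ρ)) =
      2 * Real.pi * I := by
  have hab : a ≤ b := by linarith
  have hcd : c ≤ d := by linarith
  have e1 : (∫ x in a..b, 1 / ((x : ℂ) + c * I - ρ)) =
      Complex.log (I * ((c * I - ρ) + b * 1)) - Complex.log (I * ((c * I - ρ) + a * 1)) := by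
    rw [← side (c * I - ρ) 1 I a b hab]
    · rw [one_mul]
      congr 1
      funext x
      congr 1
      ring
    · intro t _
      simp
      linarith
  have e2 : I * (∫ t in c..d, 1 / ((b : ℂ) + t * I - ρ)) =
      Complex.log (1 * ((b - ρ) + d * I)) - Complex.log (1 * ((b - ρ) + c * I)) := by
    rw [← side (b - ρ) I 1 c d hcd]
    · congr 2
      funext x
      congr 1
      ring
    · intro t _
      simp
      linarith
  have e3 : (∫ x in a..b, 1 / ((x : ℂ) + d * I - ρ)) =
      Complex.log (-I * ((d * I - ρ) + b * 1)) - Complex.log (-I * ((d * I - ρ) + a * 1)) := by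
    rw [← side (d * I - ρ) 1 (-I) a b hab]
    · rw [one_mul]
      congr 1
      funext x
      congr 1
      ring
    · intro t _
      simp
      linarith
  have e4 : I * (∫ t in c..d, 1 / ((a : ℂ) + t * I - ρ)) =
      Complex.log (-1 * ((a - ρ) + d * I)) - Complex.log (-1 * ((a - ρ) + c * I)) := by
    rw [← side (a - ρ) I (-1) c d hcd]
    · congr 2
      funext x
      congr 1
      ring
    · intro t _
      simp
      linarith
  -- the four corners
  have k1 := corner (w := (b - ρ) + d * I) (by simp; linarith) (by simp; linarith)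
  have k2 := corner (w := -I * ((a - ρ) + d * I)) (by simp; linarith) (by simp; linarith)
  have k3 := corner (w := -((a - ρ) + c * I)) (by simp; linarith) (by simp; linarith)
  have k4 := corner (w := I * ((b - ρ) + c * I)) (by simp; linarith) (by simp; linarith)
  rw [e1, e2, e3, e4]
  have r1 : (I * ((c * I - ρ) + b * 1) : ℂ) = I * ((b - ρ) + c * I) := by ring
  have r2 : (I * ((c * I - ρ) + a * 1) : ℂ) = -I * -((a - ρ) + c * I) := by ring
  have r3 : (1 * ((b - ρ) + d * I) : ℂ) = (b - ρ) + d * I := by ring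
  have r4 : (1 * ((b - ρ) + c * I) : ℂ) = -I * (I * ((b - ρ) + c * I)) := by
    linear_combination ((b - ρ) + c * I) * I_mul_I
  have r5 : (-I * ((d * I - ρ) + b * 1) : ℂ) = -I * ((b - ρ) + d * I) := by ring
  have r6 : (-I * ((d * I - ρ) + a * 1) : ℂ) = -I * ((a - ρ) + d * I) := by ring
  have r7 : (-1 * ((a - ρ) + d * I) : ℂ) = -I * (-I * ((a - ρ) + d * I)) := by
    linear_combination -((a - ρ) + d * I) * I_mul_I
  have r8 : (-1 * ((a - ρ) + c * I) : ℂ) = -((a - ρ) + c * I) := by ring
  rw [r1, r2, r3, r4, r5, r6, r7, r8]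
  linear_combination k1 + k2 + k3 + k4

theorem rc : T_RC := by
  intro K a b c d ρ hK h1 h2 h3 h4
  have hab : a ≤ b := by linarith
  have hcd : c ≤ d := by linarith
  have hone := rect_one a b c d ρ h1 h2 h3 h4
  -- the entire part
  have hds : Differentiable ℂ (dslope K ρ) := by
    rw [← differentiableOn_univ]
    exact (Complex.differentiableOn_dslope Filter.univ_mem).2 hK.differentiableOn
  have hzero := Complex.integral_boundary_rect_eq_zero_of_differentiableOn (dslope K ρ)
    ((a : ℂ) + c * I) ((b : ℂ) + d * I) hds.differentiableOn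
  simp only [add_re, ofReal_re, mul_re, I_re, mul_zero, ofReal_im, I_im, mul_one, sub_self,
    add_zero, add_im, mul_im, zero_add] at hzero
  have hsplit : ∀ s : ℂ, s ≠ ρ → K s / (s - ρ) = dslope K ρ s + K ρ * (1 / (s - ρ)) := by
    intro s hs
    rw [dslope_of_ne _ hs, slope_def_field]
    have : s - ρ ≠ 0 := sub_ne_zero.2 hs
    field_simp
    ring
  -- sides
  have n1 : ∀ x : ℝ, (x : ℂ) + c * I ≠ ρ := by
    intro x h
    have := congrArg Complex.im h
    simp at this
    linarith
  have n2 : ∀ t : ℝ, (b : ℂ) + t * I ≠ ρ := by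
    intro x h
    have := congrArg Complex.re h
    simp at this
    linarith
  have n3 : ∀ x : ℝ, (x : ℂ) + d * I ≠ ρ := by
    intro x h
    have := congrArg Complex.im h
    simp at this
    linarith
  have n4 : ∀ t : ℝ, (a : ℂ) + t * I ≠ ρ := by
    intro x h
    have := congrArg Complex.re h
    simp at this
    linarith
  have key : ∀ (γ : ℝ → ℂ), Continuous γ → (∀ t, γ t ≠ ρ) → ∀ u v : ℝ,
      (∫ t in u..v, K (γ t) / (γ t - ρ)) =
        (∫ t in u..v, dslope K ρ (γ t)) + K ρ * ∫ t in u..v, 1 / (γ t - ρ) := by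
    intro γ hγ hne u v
    rw [← intervalIntegral.integral_const_mul, ← intervalIntegral.integral_add]
    · exact intervalIntegral.integral_congr fun t _ => hsplit _ (hne t)
    · exact (hds.continuous.comp hγ).intervalIntegrable _ _
    · apply Continuous.intervalIntegrable
      apply Continuous.mul continuous_const
      apply Continuous.div continuous_const (hγ.sub continuous_const)
      exact fun t => sub_ne_zero.2 (hne t)
  have q1 := key (fun x : ℝ => (x : ℂ) + c * I) (by fun_prop) n1 a b
  have q2 := key (fun t : ℝ => (b : ℂ) + t * I) (by fun_prop) n2 c d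
  have q3 := key (fun x : ℝ => (x : ℂ) + d * I) (by fun_prop) n3 a b
  have q4 := key (fun t : ℝ => (a : ℂ) + t * I) (by fun_prop) n4 c d
  rw [q1, q2, q3, q4]
  simp only [smul_eq_mul] at hzero
  linear_combination hzero + K ρ * hone

end Pool.Agent.H18.PZ
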