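import Pool.Agent.H28.MZ.Targets

/-!
Factorisation of the zeros of an analytic function, finiteness of the zeros in a compact set,
the derivative of the logarithm of the modulus.
-/

set_option autoImplicit false

open Complex MeasureTheory Set Filter Topology

namespace Pool.Agent.H18.PZ

open Pool.Agent.H28.MZ

/-- factorisation of finitely many zeros -/
lemma factor {U : Set ℂ} {f : ℂ → ℂ} (hf : ∀ s ∈ U, AnalyticAt ℂ f s)
    (Z : Finset ℂ) (hZ : ∀ z ∈ Z, z ∈ U ∧ analyticOrderAt f z ≠ ⊤) :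
    ∃ g : ℂ → ℂ, (∀ s ∈ U, AnalyticAt ℂ g s) ∧
      (∀ s, f s = (∏ z ∈ Z, (s - z) ^ analyticOrderNatAt f z) * g s) ∧ ∀ z ∈ Z, g z ≠ 0 := by
  classical
  induction Z using Finset.induction_on with
  | empty => exact ⟨f, hf, fun s => by simp, fun z hz => absurd hz (Finset.notMem_empty z)⟩
  | @insert z0 Z hz0 ih =>
    obtain ⟨g, hg, hfg, hgz⟩ := ih (fun z hz => hZ z (Finset.mem_insert_of_mem hz))
    obtain ⟨hz0U, htop⟩ := hZ z0 (Finset.mem_insert_self _ _)
    set n := analyticOrderNatAt f z0 with hn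
    have hP : AnalyticAt ℂ (fun s => ∏ z ∈ Z, (s - z) ^ analyticOrderNatAt f z) z0 := by
      fun_prop
    have hPne : (fun s => ∏ z ∈ Z, (s - z) ^ analyticOrderNatAt f z) z0 ≠ 0 := by
      apply Finset.prod_ne_zero_iff.2
      intro z hz
      apply pow_ne_zero
      rw [sub_ne_zero]
      rintro rfl
      exact hz0 hz
    have hord : analyticOrderAt g z0 = n := by
      have h1 : f = (fun s => ∏ z ∈ Z, (s - z) ^ analyticOrderNatAt f z) * g := funext hfg
      have h2 := analyticOrderAt_mul hP (hg z0 hz0U)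
      rw [← h1, hP.analyticOrderAt_eq_zero.2 hPne, zero_add] at h2
      rw [← h2]
      exact (Nat.cast_analyticOrderNatAt htop).symm
    obtain ⟨g0, hg0, hg0ne, hev⟩ := (hg z0 hz0U).analyticOrderAt_eq_natCast.1 hord
    let g1 : ℂ → ℂ := fun s => if s = z0 then g0 z0 else g s / (s - z0) ^ n
    refine ⟨g1, ?_, ?_, ?_⟩
    · intro s hs
      by_cases h : s = z0
      · subst h
        refine hg0.congr ?_
        filter_upwards [hev] with w hw
        by_cases hw0 : w = s
        · rw [hw0]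
          simp [g1]
        · have h2 : (w - s) ^ n ≠ 0 := pow_ne_zero _ (sub_ne_zero.2 hw0)
          simp only [g1, if_neg hw0, hw, smul_eq_mul]
          field_simp
      · have h1 : AnalyticAt ℂ (fun s => g s / (s - z0) ^ n) s := by
          apply (hg s hs).div (by fun_prop)
          exact pow_ne_zero _ (sub_ne_zero.2 h)
        refine h1.congr ?_
        filter_upwards [isOpen_ne.mem_nhds h] with w hw
        simp only [g1]
        rw [if_neg hw]
    · intro s
      rw [Finset.prod_insert hz0, hfg s, ← hn]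
      by_cases h : s = z0
      · subst h
        have h1 := hev.self_of_nhds
        have h2 : g1 s = g0 s := by simp [g1]
        rw [h2, h1, smul_eq_mul]
        ring
      · have h2 : (s - z0) ^ n ≠ 0 := pow_ne_zero _ (sub_ne_zero.2 h)
        simp only [g1, if_neg h]
        field_simp
    · intro z hz
      rcases Finset.mem_insert.1 hz with h2 | hz'
      · rw [h2]
        simpa [g1] using hg0ne
      · have h1 : z ≠ z0 := fun h => hz0 (h ▸ hz')
        simp only [g1, if_neg h1]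
        exact div_ne_zero (hgz z hz') (pow_ne_zero _ (sub_ne_zero.2 h1))

/-- the logarithmic derivative -/
lemma factor_logDeriv {f g : ℂ → ℂ} {Z : Finset ℂ} {n : ℂ → ℕ}
    (hfg : ∀ s, f s = (∏ z ∈ Z, (s - z) ^ n z) * g s) {s : ℂ}
    (hg : DifferentiableAt ℂ g s) (hs : f s ≠ 0) :
    deriv f s / f s = ∑ z ∈ Z, (n z : ℂ) * (1 / (s - z)) + deriv g s / g s := by
  have h0 := hs
  rw [hfg s] at h0
  have hP : (∏ z ∈ Z, (s - z) ^ n z) ≠ 0 := left_ne_zero_of_mul h0
  have hgs : g s ≠ 0 := right_ne_zero_of_mul h0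
  have hf : f = fun s => (fun s => ∏ z ∈ Z, (s - z) ^ n z) s * g s := funext hfg
  have h1 : logDeriv f s = deriv f s / f s := rfl
  have h2 : logDeriv g s = deriv g s / g s := rfl
  rw [← h1, ← h2, hf, logDeriv_mul s hP hgs (by fun_prop) hg]
  congr 1
  have h3 := logDeriv_prod (s := Z) (f := fun z s => (s - z) ^ n z) (x := s)
    (fun z hz => by
      have := Finset.prod_ne_zero_iff.1 hP z hz
      exact this) (fun z _ => by fun_prop)
  rw [show (fun s => ∏ z ∈ Z, (s - z) ^ n z) = (∏ z ∈ Z, (fun s => (s - z) ^ n z)) by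
    funext s; simp] at *
  rw [h3]
  refine Finset.sum_congr rfl fun z _ => ?_
  rw [logDeriv_fun_pow (by fun_prop)]
  congr 1
  unfold logDeriv
  simp

/-- the zeros in a compact set are finite -/
lemma zeros_finite {U : Set ℂ} (hU : IsPreconnected U) {f : ℂ → ℂ} (hf : AnalyticOnNhd ℂ f U)
    {s0 : ℂ} (hs0 : s0 ∈ U) (hne : f s0 ≠ 0) {R : Set ℂ} (hR : IsCompact R) (hRU : R ⊆ U) :
    {z | z ∈ R ∧ f z = 0}.Finite := by
  by_contra hinf
  obtain ⟨x, hx, hacc⟩ := Set.Infinite.exists_accPt_of_subset_isCompact hinf hR (fun z hz => hz.1)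
  have h1 : ∃ᶠ z in 𝓝[≠] x, f z = 0 := by
    rw [accPt_iff_frequently] at hacc
    rw [frequently_nhdsWithin_iff]
    exact hacc.mono fun z hz => ⟨hz.2.2, hz.1⟩
  have h2 := hf.eqOn_zero_of_preconnected_of_frequently_eq_zero hU (hRU hx) h1
  exact hne (h2 hs0)

lemma order_ne_top {U : Set ℂ} (hU : IsPreconnected U) {f : ℂ → ℂ} (hf : AnalyticOnNhd ℂ f U)
    {s0 : ℂ} (hs0 : s0 ∈ U) (hne : f s0 ≠ 0) {z : ℂ} (hz : z ∈ U) : analyticOrderAt f z ≠ ⊤ := by
  intro h
  rw [analyticOrderAt_eq_top] at h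
  have h1 : ∃ᶠ z in 𝓝[≠] z, f z = 0 := (h.filter_mono nhdsWithin_le_nhds).frequently
  have h2 := hf.eqOn_zero_of_preconnected_of_frequently_eq_zero hU hz h1
  exact hne (h2 hs0)

/-- derivative of the logarithm of the modulus -/
lemma hasDerivAt_log_norm {w : ℝ → ℂ} {w' : ℂ} {t : ℝ} (h : HasDerivAt w w' t) (hw : w t ≠ 0) :
    HasDerivAt (fun t => Real.log ‖w t‖) (w' / w t).re t := by
  have h1 := h.norm_sq
  have h2 : ‖w t‖ ^ 2 ≠ 0 := by
    have := norm_pos_iff.2 hw
    positivity
  have h3 := (h1.log h2).div_const 2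
  have h4 : (fun t => Real.log (‖w t‖ ^ 2) / 2) = fun t => Real.log ‖w t‖ := by
    funext t
    rw [Real.log_pow]
    push_cast
    ring
  rw [h4] at h3
  convert! h3 using 1
  rw [div_re, Complex.inner, mul_re, conj_re, conj_im, ← Complex.normSq_eq_norm_sq]
  have h5 : normSq (w t) ≠ 0 := by rwa [Complex.normSq_eq_norm_sq]
  field_simp
  ring

end Pool.Agent.H18.PZ
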