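import Pool.Agent.H18.PZ.JIa

/-!
Module JI of MP_9f0eeb_nt (positive proportion): upper bound for zeros from a mean square.
-/

set_option autoImplicit false

open Complex MeasureTheory Set Filter Topology

namespace Pool.Agent.H18.PZ

open Pool.Agent.H28.MZ

lemma subst_unit (g : ℝ → ℝ) (c D : ℝ) :
    (∫ t in c..(c + D), g t) = D * ∫ v in (0 : ℝ)..1, g (c + D * v) := by
  rw [intervalIntegral.mul_integral_comp_add_mul]
  simp

theorem ji (hCA : T_CA) : T_JI := by
  intro f a b T M e Q S m hab hT hM he he4 hQ hdiff hbd hone hint hS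
  have hpi := Real.pi_pos
  have hT0 : 0 < T := by linarith
  -- the zeros in the big rectangle
  have hU : IsPreconnected {s : ℂ | T / 2 < s.im} :=
    (convex_halfSpace_im_gt (T / 2)).isPreconnected
  have hUo : IsOpen {s : ℂ | T / 2 < s.im} := isOpen_lt continuous_const Complex.continuous_im
  have hana : AnalyticOnNhd ℂ f {s : ℂ | T / 2 < s.im} := by
    apply DifferentiableOn.analyticOnNhd _ hUo
    intro s hs
    exact (hdiff s hs).differentiableWithinAt
  have hs0 : ((b : ℂ) + T * I) ∈ {s : ℂ | T / 2 < s.im} := by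
    simp
    linarith
  have hne0 : f ((b : ℂ) + T * I) ≠ 0 := by
    intro h
    have h1 := hone ((b : ℂ) + T * I) (by simp) (by simp) (by simp; linarith) (by simp; linarith)
    rw [h, zero_sub, norm_neg, norm_one] at h1
    linarith
  have hcomp : IsCompact (Icc (a - 1) b ×ℂ Icc T (2 * T)) := isCompact_Icc.reProdIm isCompact_Icc
  have hF : {z | z ∈ Icc (a - 1) b ×ℂ Icc T (2 * T) ∧ f z = 0}.Finite := by
    apply zeros_finite hU hana hs0 hne0 hcomp
    intro z hz
    have := (Complex.mem_reProdIm.1 hz).2.1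
    show T / 2 < z.im
    linarith
  set F : Set ℂ := {z | z ∈ Icc (a - 1) b ×ℂ Icc T (2 * T) ∧ f z = 0} with hFdef
  have hFre : (Complex.re '' F).Finite := hF.image _
  have hFim : (Complex.im '' F).Finite := hF.image _
  -- the filter
  set l1 : Filter ℝ := 𝓝[<] a with hl1
  set l2 : Filter ℝ := 𝓝[>] T with hl2
  set l3 : Filter ℝ := 𝓝[<] (2 * T) with hl3
  set l : Filter (ℝ × ℝ × ℝ) := l1 ×ˢ (l2 ×ˢ l3) with hl
  have t1 : Tendsto (fun p : ℝ × ℝ × ℝ => p.1) l (𝓝 a) := tendsto_fst.mono_right nhdsWithin_le_nhds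
  have t2 : Tendsto (fun p : ℝ × ℝ × ℝ => p.2.1) l (𝓝 T) :=
    (tendsto_fst.comp tendsto_snd).mono_right nhdsWithin_le_nhds
  have t3 : Tendsto (fun p : ℝ × ℝ × ℝ => p.2.2) l (𝓝 (2 * T)) :=
    (tendsto_snd.comp tendsto_snd).mono_right nhdsWithin_le_nhds
  have tD : Tendsto (fun p : ℝ × ℝ × ℝ => p.2.2 - p.2.1) l (𝓝 T) := by
    have := t3.sub t2
    convert! this using 2
    ring
  have ev1 : ∀ᶠ p : ℝ × ℝ × ℝ in l, a - 1 < p.1 ∧ p.1 < a ∧ p.1 ∉ Complex.re '' F := by
    have h1 : ∀ᶠ x in l1, a - 1 < x ∧ x < a ∧ x ∉ Complex.re '' F := by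
      have h2 : ∀ᶠ x in l1, a - 1 < x :=
        nhdsWithin_le_nhds (lt_mem_nhds (by linarith))
      have h3 : ∀ᶠ x in l1, x < a := self_mem_nhdsWithin
      have h4 : ∀ᶠ x in l1, x ∉ (Complex.re '' F) \ {a} :=
        nhdsWithin_le_nhds ((hFre.subset sdiff_subset).isClosed.isOpen_compl.mem_nhds (by simp))
      filter_upwards [h2, h3, h4] with x h2 h3 h4
      exact ⟨h2, h3, fun h => h4 ⟨h, h3.ne⟩⟩
    exact tendsto_fst.eventually h1
  have ev2 : ∀ᶠ p : ℝ × ℝ × ℝ in l, T < p.2.1 ∧ p.2.1 ∉ Complex.im '' F := by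
    have h1 : ∀ᶠ x in l2, T < x ∧ x ∉ Complex.im '' F := by
      have h3 : ∀ᶠ x in l2, T < x := self_mem_nhdsWithin
      have h4 : ∀ᶠ x in l2, x ∉ (Complex.im '' F) \ {T} :=
        nhdsWithin_le_nhds ((hFim.subset sdiff_subset).isClosed.isOpen_compl.mem_nhds (by simp))
      filter_upwards [h3, h4] with x h3 h4
      exact ⟨h3, fun h => h4 ⟨h, h3.ne'⟩⟩
    exact (tendsto_fst.comp tendsto_snd).eventually h1
  have ev3 : ∀ᶠ p : ℝ × ℝ × ℝ in l, p.2.2 < 2 * T ∧ p.2.2 ∉ Complex.im '' F := by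
    have h1 : ∀ᶠ x in l3, x < 2 * T ∧ x ∉ Complex.im '' F := by
      have h3 : ∀ᶠ x in l3, x < 2 * T := self_mem_nhdsWithin
      have h4 : ∀ᶠ x in l3, x ∉ (Complex.im '' F) \ {2 * T} :=
        nhdsWithin_le_nhds ((hFim.subset sdiff_subset).isClosed.isOpen_compl.mem_nhds (by simp))
      filter_upwards [h3, h4] with x h3 h4
      exact ⟨h3, fun h => h4 ⟨h, h3.ne⟩⟩
    exact (tendsto_snd.comp tendsto_snd).eventually h1
  have ev4 : ∀ᶠ p : ℝ × ℝ × ℝ in l, 0 < p.2.2 - p.2.1 := tD.eventually (lt_mem_nhds hT0)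
  have ev5 : ∀ᶠ p : ℝ × ℝ × ℝ in l, ∀ ρ ∈ S, p.2.1 < ρ.im ∧ ρ.im < p.2.2 := by
    rw [Filter.eventually_all_finset]
    intro ρ hρ
    exact (t2.eventually (gt_mem_nhds (hS ρ hρ).1)).and (t3.eventually (lt_mem_nhds (hS ρ hρ).2.1))
  -- the two sides
  set LS : ℝ × ℝ × ℝ → ℝ := fun p => 2 * Real.pi * ∑ ρ ∈ S, (m ρ : ℝ) *
    ((p.2.2 - p.2.1) / Real.pi * Real.sinh (Real.pi * max 0 (ρ.re - p.1) / (p.2.2 - p.2.1))) *
      Real.sin (Real.pi * (ρ.im - p.2.1) / (p.2.2 - p.2.1)) with hLS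
  set J : ℝ × ℝ × ℝ → ℝ := fun p => ∫ v in (0 : ℝ)..1, Real.sin (Real.pi * v) *
    ‖f ((p.1 : ℂ) + ((p.2.1 + (p.2.2 - p.2.1) * v : ℝ) : ℂ) * I)‖ ^ 2 with hJ
  set RS : ℝ × ℝ × ℝ → ℝ := fun p =>
    1 / 2 * (1 / Q * ((p.2.2 - p.2.1) * J p) + (Real.log Q - 1) * (2 * (p.2.2 - p.2.1) / Real.pi)) +
        2 * (b - p.1) * Real.sinh (Real.pi * (b - p.1) / (p.2.2 - p.2.1)) * Real.log M +
        ((p.2.2 - p.2.1) + 2) * (p.2.2 - p.2.1) *
          Real.cosh (Real.pi * (b - p.1) / (p.2.2 - p.2.1)) * (3 * e) with hRS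
  have hJ1 : ∀ p : ℝ × ℝ × ℝ, 0 < p.2.2 - p.2.1 →
      (∫ t in p.2.1..(p.2.1 + (p.2.2 - p.2.1)),
        Real.sin (Real.pi * (t - p.2.1) / (p.2.2 - p.2.1)) * ‖f ((p.1 : ℂ) + t * I)‖ ^ 2) =
        (p.2.2 - p.2.1) * J p := by
    intro p hp
    rw [subst_unit, hJ]
    congr 1
    apply intervalIntegral.integral_congr
    intro v _
    simp only
    rw [show Real.pi * (p.2.1 + (p.2.2 - p.2.1) * v - p.2.1) / (p.2.2 - p.2.1) = Real.pi * v by
      field_simp; ring]
  have hineq : ∀ᶠ p : ℝ × ℝ × ℝ in l, LS p ≤ RS p := by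
    filter_upwards [ev1, ev2, ev3, ev4, ev5] with p h1 h2 h3 h4 h5
    have hadd : p.2.1 + (p.2.2 - p.2.1) = p.2.2 := by ring
    have key := ji_aux hCA hT hM he he4 hQ hdiff hbd hone S m (a' := p.1) (T₁ := p.2.1)
      (D := p.2.2 - p.2.1) h1.1.le (h1.2.1.trans hab) h2.1.le h4 (by linarith [h3.1])
      (by
        intro t ht h0
        rw [hadd] at ht
        refine h1.2.2 ⟨(p.1 : ℂ) + t * I, ⟨?_, h0⟩, by simp⟩
        rw [Complex.mem_reProdIm]
        simp only [add_re, ofReal_re, mul_re, I_re, mul_zero, ofReal_im, I_im, mul_one,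
            sub_self, add_zero, add_im, mul_im, zero_add, mem_Icc]
        exact ⟨⟨h1.1.le, by linarith [h1.2.1]⟩, by linarith [ht.1, h2.1], by linarith [ht.2, h3.1]⟩)
      (by
        intro x hx
        rw [hadd]
        constructor
        · intro h0
          refine h2.2 ⟨(x : ℂ) + p.2.1 * I, ⟨?_, h0⟩, by simp⟩
          rw [Complex.mem_reProdIm]
          simp only [add_re, ofReal_re, mul_re, I_re, mul_zero, ofReal_im, I_im, mul_one,
              sub_self, add_zero, add_im, mul_im, zero_add, mem_Icc]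
          exact ⟨⟨by linarith [h1.1, hx.1], hx.2⟩, by linarith [h2.1], by linarith [h3.1]⟩
        · intro h0
          refine h3.2 ⟨(x : ℂ) + p.2.2 * I, ⟨?_, h0⟩, by simp⟩
          rw [Complex.mem_reProdIm]
          simp only [add_re, ofReal_re, mul_re, I_re, mul_zero, ofReal_im, I_im, mul_one,
              sub_self, add_zero, add_im, mul_im, zero_add, mem_Icc]
          exact ⟨⟨by linarith [h1.1, hx.1], hx.2⟩, by linarith [h2.1], by linarith [h3.1]⟩)
      (by
        intro ρ hρ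
        rw [hadd]
        exact ⟨(h5 ρ hρ).1, (h5 ρ hρ).2, (hS ρ hρ).2.2.1, (hS ρ hρ).2.2.2⟩)
    rw [hJ1 p h4] at key
    exact key
  -- the limits
  have tD0 : ∀ᶠ p : ℝ × ℝ × ℝ in l, p.2.2 - p.2.1 ≠ 0 := ev4.mono fun p hp => hp.ne'
  have hD0 : (2 * T - T : ℝ) ≠ 0 := by
    intro h
    linarith
  have tJ : Tendsto J l (𝓝 (J (a, T, 2 * T))) := by
    rw [hJ]
    apply intervalIntegral.tendsto_integral_filter_of_dominated_convergence (fun _ => M ^ 2)
    · filter_upwards [ev1, ev2, ev3, ev4] with p h1 h2 h3 h4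
      apply ContinuousOn.aestronglyMeasurable _ measurableSet_uIoc
      rw [uIoc_of_le zero_le_one]
      apply ContinuousOn.mul (by fun_prop)
      apply ContinuousOn.pow
      apply ContinuousOn.norm
      intro v hv
      have hc : ContinuousAt f ((p.1 : ℂ) + ((p.2.1 + (p.2.2 - p.2.1) * v : ℝ) : ℂ) * I) := by
        apply (hdiff _ _).continuousAt
        have : 0 ≤ (p.2.2 - p.2.1) * v := mul_nonneg h4.le hv.1.le
        simp only [add_im, ofReal_im, mul_im, ofReal_re, I_im, mul_one, I_re, mul_zero, add_zero,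
          zero_add]
        linarith [h2.1]
      exact (hc.comp (f := fun v : ℝ => (p.1 : ℂ) + ((p.2.1 + (p.2.2 - p.2.1) * v : ℝ) : ℂ) * I)
        (by fun_prop)).continuousWithinAt
    · filter_upwards [ev1, ev2, ev3, ev4] with p h1 h2 h3 h4
      refine Eventually.of_forall fun v hv => ?_
      rw [uIoc_of_le zero_le_one] at hv
      have hv0 : 0 ≤ (p.2.2 - p.2.1) * v := mul_nonneg h4.le hv.1.le
      have hv1 : (p.2.2 - p.2.1) * v ≤ (p.2.2 - p.2.1) := by
        have := mul_le_mul_of_nonneg_left hv.2 h4.le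
        linarith
      have hb : ‖f ((p.1 : ℂ) + ((p.2.1 + (p.2.2 - p.2.1) * v : ℝ) : ℂ) * I)‖ ≤ M := by
        apply hbd
        · simp only [add_re, ofReal_re, mul_re, I_re, mul_zero, ofReal_im, I_im, mul_one,
            sub_self, add_zero]
          exact h1.1.le
        · simp only [add_re, ofReal_re, mul_re, I_re, mul_zero, ofReal_im, I_im, mul_one,
            sub_self, add_zero]
          linarith [h1.2.1]
        · simp only [add_im, ofReal_im, mul_im, ofReal_re, I_im, mul_one, I_re, mul_zero, add_zero,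
            zero_add]
          linarith [h2.1]
        · simp only [add_im, ofReal_im, mul_im, ofReal_re, I_im, mul_one, I_re, mul_zero, add_zero,
            zero_add]
          linarith [h3.1]
      rw [norm_mul, norm_pow, norm_norm, Real.norm_eq_abs]
      have h5 : |Real.sin (Real.pi * v)| ≤ 1 := Real.abs_sin_le_one _
      have h6 : ‖f ((p.1 : ℂ) + ((p.2.1 + (p.2.2 - p.2.1) * v : ℝ) : ℂ) * I)‖ ^ 2 ≤ M ^ 2 := by
        gcongr
      calc _ ≤ 1 * M ^ 2 := by gcongr
        _ = M ^ 2 := one_mul _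
    · simp
    · refine Eventually.of_forall fun v hv => ?_
      rw [uIoc_of_le zero_le_one] at hv
      have hc : ContinuousAt f ((a : ℂ) + ((T + (2 * T - T) * v : ℝ) : ℂ) * I) := by
        apply (hdiff _ _).continuousAt
        have : 0 ≤ (2 * T - T) * v := mul_nonneg (by linarith) hv.1.le
        simp only [add_im, ofReal_im, mul_im, ofReal_re, I_im, mul_one, I_re, mul_zero, add_zero,
          zero_add]
        linarith
      have hin : Tendsto (fun p : ℝ × ℝ × ℝ =>
          (p.1 : ℂ) + ((p.2.1 + (p.2.2 - p.2.1) * v : ℝ) : ℂ) * I) l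
          (𝓝 ((a : ℂ) + ((T + (2 * T - T) * v : ℝ) : ℂ) * I)) := by
        have u1 : Tendsto (fun p : ℝ × ℝ × ℝ => (p.1 : ℂ)) l (𝓝 (a : ℂ)) :=
          (Complex.continuous_ofReal.tendsto a).comp t1
        have u2 : Tendsto (fun p : ℝ × ℝ × ℝ => p.2.1 + (p.2.2 - p.2.1) * v) l
            (𝓝 (T + (2 * T - T) * v)) := t2.add ((t3.sub t2).mul_const v)
        exact u1.add (((Complex.continuous_ofReal.tendsto _).comp u2).mul_const I)
      exact (((hc.tendsto.comp hin).norm).pow 2).const_mul _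
  have tDD : Tendsto (fun p : ℝ × ℝ × ℝ => p.2.2 - p.2.1) l (𝓝 (2 * T - T)) := t3.sub t2
  have tL : Tendsto LS l (𝓝 (LS (a, T, 2 * T))) := by
    rw [hLS]
    apply Tendsto.const_mul
    apply tendsto_finsetSum
    intro ρ _
    apply Tendsto.mul
    · apply Tendsto.const_mul
      apply Tendsto.mul
      · exact tDD.div_const _
      · apply (Real.continuous_sinh.tendsto _).comp
        apply Tendsto.div _ tDD hD0
        apply Tendsto.const_mul
        exact ((continuous_const.max (continuous_const.sub continuous_id)).tendsto a).comp t1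
    · apply (Real.continuous_sin.tendsto _).comp
      apply Tendsto.div _ tDD hD0
      apply Tendsto.const_mul
      exact tendsto_const_nhds.sub t2
  have tba : Tendsto (fun p : ℝ × ℝ × ℝ => b - p.1) l (𝓝 (b - a)) := tendsto_const_nhds.sub t1
  have tR : Tendsto RS l (𝓝 (RS (a, T, 2 * T))) := by
    rw [hRS]
    apply Tendsto.add
    · apply Tendsto.add
      · apply Tendsto.const_mul
        apply Tendsto.add
        · apply Tendsto.const_mul
          exact tDD.mul tJ
        · apply Tendsto.const_mul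
          exact (tDD.const_mul 2).div_const _
      · apply Tendsto.mul_const
        apply Tendsto.mul
        · exact tba.const_mul 2
        · apply (Real.continuous_sinh.tendsto _).comp
          exact (tba.const_mul _).div tDD hD0
    · apply Tendsto.mul_const
      apply Tendsto.mul
      · exact (tDD.add_const 2).mul tDD
      · apply (Real.continuous_cosh.tendsto _).comp
        exact (tba.const_mul _).div tDD hD0
  have : l.NeBot := by
    rw [hl]
    infer_instance
  have hfin := le_of_tendsto_of_tendsto tL tR hineq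
  have hTT : 2 * T - T = T := by ring
  have hL1 : LS (a, T, 2 * T) = 2 * Real.pi * ∑ ρ ∈ S, (m ρ : ℝ) * ph T (max 0 (ρ.re - a)) *
      sn T ρ.im := by
    rw [hLS]
    simp only [ph, sn, hTT]
  have hint2 : T * J (a, T, 2 * T) ≤ 2 * T / Real.pi * Q := by
    refine le_trans (le_of_eq ?_) hint
    have h1 := hJ1 (a, T, 2 * T) (by simp only; linarith)
    simp only [hTT] at h1
    rw [← h1]
    rw [show T + T = 2 * T by ring]
    rfl
  rw [hL1] at hfin
  refine hfin.trans ?_
  simp only [hRS, hTT]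
  have h1 : 1 / Q * (T * J (a, T, 2 * T)) ≤ 2 * T / Real.pi := by
    calc 1 / Q * (T * J (a, T, 2 * T)) ≤ 1 / Q * (2 * T / Real.pi * Q) := by gcongr
      _ = 2 * T / Real.pi := by field_simp
  have h2 : 0 ≤ (T + 2) * T * Real.cosh (Real.pi * (b - a) / T) * e := by
    have := Real.cosh_pos (Real.pi * (b - a) / T)
    positivity
  have h3 : 1 / 2 * (2 * T / Real.pi + (Real.log Q - 1) * (2 * T / Real.pi)) =
      T / Real.pi * Real.log Q := by ring
  linarith

end Pool.Agent.H18.PZ
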