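import Pool.Agent.H18.PZ.Fac

/-!
Module JI of MP_9f0eeb_nt (positive proportion): upper bound for zeros from a mean square.
-/

set_option autoImplicit false

open Complex MeasureTheory Set Filter Topology

namespace Pool.Agent.H18.PZ

open Pool.Agent.H28.MZ

lemma integral_sin_D {T₁ D : ℝ} (hD : 0 < D) :
    ∫ t in T₁..(T₁ + D), Real.sin (Real.pi * (t - T₁) / D) = 2 * D / Real.pi := by
  have hpi := Real.pi_pos
  have hd : ∀ t ∈ uIcc T₁ (T₁ + D), HasDerivAt
      (fun t => -(D / Real.pi) * Real.cos (Real.pi * (t - T₁) / D))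
      (Real.sin (Real.pi * (t - T₁) / D)) t := by
    intro t _
    have h1 : HasDerivAt (fun t => Real.pi * (t - T₁) / D) (Real.pi * 1 / D) t :=
      (((hasDerivAt_id t).sub_const T₁).const_mul _).div_const _
    have h2 := (h1.cos).const_mul (-(D / Real.pi))
    convert! h2 using 1
    field_simp
  rw [intervalIntegral.integral_eq_sub_of_hasDerivAt hd
    (by apply Continuous.intervalIntegrable; fun_prop)]
  have e1 : Real.pi * (T₁ + D - T₁) / D = Real.pi := by field_simp; ring
  rw [e1, sub_self, mul_zero, zero_div, Real.cos_pi, Real.cos_zero]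
  ring

lemma ji_aux (hCA : T_CA) {f : ℂ → ℂ} {a b T M e Q : ℝ} (hT : 1 ≤ T) (hM : 1 ≤ M)
    (he : 0 ≤ e) (he4 : e ≤ 1 / 4) (hQ : 0 < Q)
    (hdiff : ∀ s : ℂ, T / 2 < s.im → DifferentiableAt ℂ f s)
    (hbd : ∀ s : ℂ, a - 1 ≤ s.re → s.re ≤ b → T ≤ s.im → s.im ≤ 2 * T → ‖f s‖ ≤ M)
    (hone : ∀ s : ℂ, b - 1 ≤ s.re → s.re ≤ b + 1 → T / 2 ≤ s.im → s.im ≤ 3 * T → ‖f s - 1‖ ≤ e)
    (S : Finset ℂ) (m : ℂ → ℕ) {a' T₁ D : ℝ} (ha' : a - 1 ≤ a') (hab : a' < b)
    (h1 : T ≤ T₁) (hD : 0 < D) (h2 : T₁ + D ≤ 2 * T)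
    (hleft : ∀ t ∈ Icc T₁ (T₁ + D), f (a' + t * I) ≠ 0)
    (hhor : ∀ x ∈ Icc a' b, f (x + T₁ * I) ≠ 0 ∧ f (x + ((T₁ + D : ℝ) : ℂ) * I) ≠ 0)
    (hS : ∀ ρ ∈ S, T₁ < ρ.im ∧ ρ.im < T₁ + D ∧ ρ.re < b ∧ m ρ ≤ analyticOrderNatAt f ρ) :
    2 * Real.pi * ∑ ρ ∈ S, (m ρ : ℝ) * (D / Real.pi * Real.sinh (Real.pi *
        max 0 (ρ.re - a') / D)) * Real.sin (Real.pi * (ρ.im - T₁) / D) ≤
      1 / 2 * (1 / Q * (∫ t in T₁..(T₁ + D), Real.sin (Real.pi * (t - T₁) / D) *
          ‖f (a' + t * I)‖ ^ 2) + (Real.log Q - 1) * (2 * D / Real.pi)) +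
        2 * (b - a') * Real.sinh (Real.pi * (b - a') / D) * Real.log M +
        (D + 2) * D * Real.cosh (Real.pi * (b - a') / D) * (3 * e) := by
  classical
  have hpi := Real.pi_pos
  have hT0 : 0 < T := by linarith
  have hDD : T₁ + D - T₁ = D := by ring
  have hM0 : 0 ≤ Real.log M := Real.log_nonneg hM
  -- the right side
  have hright : ∀ t ∈ Icc T₁ (T₁ + D), f (b + t * I) ≠ 0 ∧ |Real.log ‖f (b + t * I)‖| ≤ 3 * e ∧
      ‖deriv f (b + t * I)‖ ≤ 3 * e * ‖f (b + t * I)‖ := by
    intro t ht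
    have hs1 : ‖f (b + t * I) - 1‖ ≤ e := by
      apply hone <;> simp <;> linarith [ht.1, ht.2]
    have hlow : 1 - e ≤ ‖f (b + t * I)‖ := by
      have h3 := norm_sub_norm_le (1 : ℂ) (f (b + t * I))
      rw [norm_sub_rev, norm_one] at h3
      linarith
    have hup : ‖f (b + t * I)‖ ≤ 1 + e := by
      have h3 := norm_sub_norm_le (f (b + t * I)) (1 : ℂ)
      rw [norm_one] at h3
      linarith
    have hpos : 0 < ‖f (b + t * I)‖ := by linarith
    refine ⟨norm_pos_iff.1 hpos, ?_, ?_⟩
    · rw [abs_le]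
      constructor
      · have h3 := Real.one_sub_inv_le_log_of_pos hpos
        have h4 : (‖f (b + t * I)‖)⁻¹ ≤ 1 + 3 * e := by
          rw [inv_le_comm₀ hpos (by linarith)]
          refine le_trans ?_ hlow
          rw [inv_le_iff_one_le_mul₀ (by linarith)]
          nlinarith
        linarith
      · have h3 := Real.log_le_sub_one_of_pos hpos
        linarith
    · have h3 : ‖deriv f (b + t * I)‖ ≤ e / (9 / 20) := by
        have h4 : deriv f (b + t * I) = deriv (fun s => f s - 1) (b + t * I) := by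
          rw [deriv_sub_const]
        rw [h4]
        have hin : ∀ z : ℂ, dist z (b + t * I) ≤ 9 / 20 →
            b - 1 ≤ z.re ∧ z.re ≤ b + 1 ∧ T / 2 < z.im ∧ z.im ≤ 3 * T := by
          intro z hz
          rw [dist_eq_norm] at hz
          have h5 := (Complex.abs_re_le_norm (z - (b + t * I))).trans hz
          have h6 := (Complex.abs_im_le_norm (z - (b + t * I))).trans hz
          simp only [sub_re, add_re, ofReal_re, mul_re, I_re, mul_zero, ofReal_im, I_im, mul_one,
            sub_self, add_zero, sub_im, add_im, mul_im, zero_add] at h5 h6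
          rw [abs_le] at h5 h6
          refine ⟨by linarith, by linarith, by linarith [ht.1], by linarith [ht.2]⟩
        apply Complex.norm_deriv_le_of_forall_mem_sphere_norm_le (by norm_num)
        · have h7 : DifferentiableOn ℂ (fun s => f s - 1) (Metric.closedBall (b + t * I) (9 / 20)) := by
            intro z hz
            have h8 := hin z (Metric.mem_closedBall.1 hz)
            exact ((hdiff z h8.2.2.1).sub_const 1).differentiableWithinAt
          exact h7.diffContOnCl_ball (le_refl _)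
        · intro z hz
          have h8 := hin z (le_of_eq (Metric.mem_sphere.1 hz))
          exact hone z h8.1 h8.2.1 h8.2.2.1.le h8.2.2.2
      refine h3.trans ?_
      rw [div_le_iff₀ (by norm_num)]
      nlinarith
  obtain ⟨Z, hZ, hmain⟩ := hCA f a' b T₁ (T₁ + D) (3 * e) hab (by linarith) (by linarith)
    (fun s hs => hdiff s (by linarith)) hleft hhor hright
  rw [hDD] at hmain
  -- comparison of the sums
  have hsin : ∀ y : ℝ, T₁ ≤ y → y ≤ T₁ + D → 0 ≤ Real.sin (Real.pi * (y - T₁) / D) := by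
    intro y h3 h4
    apply Real.sin_nonneg_of_nonneg_of_le_pi
    · have : 0 ≤ y - T₁ := by linarith
      positivity
    · rw [div_le_iff₀ hD]
      nlinarith
  have hsum : ∑ ρ ∈ S, (m ρ : ℝ) * (D / Real.pi * Real.sinh (Real.pi *
        max 0 (ρ.re - a') / D)) * Real.sin (Real.pi * (ρ.im - T₁) / D) ≤
      ∑ z ∈ Z, (analyticOrderNatAt f z : ℝ) * (D / Real.pi * Real.sinh (Real.pi *
        (z.re - a') / D)) * Real.sin (Real.pi * (z.im - T₁) / D) := by
    have s1 : ∑ ρ ∈ S, (m ρ : ℝ) * (D / Real.pi * Real.sinh (Real.pi *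
        max 0 (ρ.re - a') / D)) * Real.sin (Real.pi * (ρ.im - T₁) / D) =
        ∑ ρ ∈ S.filter (fun ρ => ρ ∈ Z), (m ρ : ℝ) * (D / Real.pi * Real.sinh (Real.pi *
        max 0 (ρ.re - a') / D)) * Real.sin (Real.pi * (ρ.im - T₁) / D) := by
      symm
      apply Finset.sum_subset (Finset.filter_subset _ _)
      intro ρ hρ hρ2
      obtain ⟨h3, h4, h5, h6⟩ := hS ρ hρ
      have hnotZ : ρ ∉ Z := fun h => hρ2 (Finset.mem_filter.2 ⟨hρ, h⟩)
      by_cases hm : m ρ = 0
      · rw [hm]
        simp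
      · have hf0 : f ρ = 0 := by
          by_contra hne
          have h7 : analyticOrderNatAt f ρ = 0 := by
            unfold analyticOrderNatAt
            rw [analyticOrderAt_eq_zero.2 (Or.inr hne)]
            rfl
          omega
        have h7 : ρ.re ≤ a' := by
          by_contra h8
          push Not at h8
          exact hnotZ ((hZ ρ).2 ⟨h8, h5, h3, h4, hf0⟩)
        rw [max_eq_left (by linarith)]
        simp
    rw [s1]
    have s2 : ∑ ρ ∈ S.filter (fun ρ => ρ ∈ Z), (m ρ : ℝ) * (D / Real.pi * Real.sinh (Real.pi *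
        max 0 (ρ.re - a') / D)) * Real.sin (Real.pi * (ρ.im - T₁) / D) ≤
        ∑ z ∈ S.filter (fun ρ => ρ ∈ Z), (analyticOrderNatAt f z : ℝ) *
        (D / Real.pi * Real.sinh (Real.pi * (z.re - a') / D)) *
          Real.sin (Real.pi * (z.im - T₁) / D) := by
      apply Finset.sum_le_sum
      intro ρ hρ
      obtain ⟨hρ1, hρ2⟩ := Finset.mem_filter.1 hρ
      obtain ⟨h3, h4, h5, h6⟩ := hS ρ hρ1
      have h7 := ((hZ ρ).1 hρ2).1
      rw [max_eq_right (by linarith)]
      have h8 := hsin ρ.im h3.le h4.le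
      have h9 : 0 ≤ Real.sinh (Real.pi * (ρ.re - a') / D) := by
        rw [Real.sinh_nonneg_iff]
        have : 0 ≤ ρ.re - a' := by linarith
        positivity
      have h10 : (m ρ : ℝ) ≤ analyticOrderNatAt f ρ := by exact_mod_cast h6
      gcongr
    refine s2.trans ?_
    apply Finset.sum_le_sum_of_subset_of_nonneg
    · intro z hz
      exact (Finset.mem_filter.1 hz).2
    · intro z hz _
      obtain ⟨h3, h4, h5, h6, _⟩ := (hZ z).1 hz
      have h8 := hsin z.im h5.le h6.le
      have h9 : 0 ≤ Real.sinh (Real.pi * (z.re - a') / D) := by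
        rw [Real.sinh_nonneg_iff]
        have : 0 ≤ z.re - a' := by linarith
        positivity
      positivity
  -- continuity
  have hcont : ∀ s : ℂ, T ≤ s.im → ContinuousAt f s := fun s hs =>
    (hdiff s (by linarith)).continuousAt
  have cleft : ContinuousOn (fun t : ℝ => f (a' + t * I)) (Icc T₁ (T₁ + D)) := by
    intro t ht
    have h3 : ContinuousAt f ((a' : ℂ) + t * I) := hcont _ (by simpa using h1.trans ht.1)
    exact (h3.comp (f := fun t : ℝ => (a' : ℂ) + t * I) (by fun_prop)).continuousWithinAt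
  have chor : ∀ y : ℝ, T ≤ y → ContinuousOn (fun x : ℝ => f (x + y * I)) (Icc a' b) := by
    intro y hy x _
    have h3 : ContinuousAt f ((x : ℂ) + y * I) := hcont _ (by simpa using hy)
    exact (h3.comp (f := fun x : ℝ => (x : ℂ) + y * I) (by fun_prop)).continuousWithinAt
  -- left integral
  have hle1 : T₁ ≤ T₁ + D := by linarith
  have e1 : (∫ t in T₁..(T₁ + D), Real.log ‖f (a' + t * I)‖ *
      Real.sin (Real.pi * (t - T₁) / D)) ≤
      1 / 2 * (1 / Q * (∫ t in T₁..(T₁ + D), Real.sin (Real.pi * (t - T₁) / D) *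
          ‖f (a' + t * I)‖ ^ 2) + (Real.log Q - 1) * (2 * D / Real.pi)) := by
    have csin : Continuous fun t : ℝ => Real.sin (Real.pi * (t - T₁) / D) := by fun_prop
    have i1 : IntervalIntegrable (fun t => Real.log ‖f (a' + t * I)‖ *
        Real.sin (Real.pi * (t - T₁) / D)) volume T₁ (T₁ + D) := by
      apply ContinuousOn.intervalIntegrable
      rw [uIcc_of_le hle1]
      exact (cleft.norm.log fun t ht => norm_ne_zero_iff.2 (hleft t ht)).mul csin.continuousOn
    have i2 : IntervalIntegrable (fun t => Real.sin (Real.pi * (t - T₁) / D) *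
        ‖f (a' + t * I)‖ ^ 2) volume T₁ (T₁ + D) := by
      apply ContinuousOn.intervalIntegrable
      rw [uIcc_of_le hle1]
      exact csin.continuousOn.mul (cleft.norm.pow 2)
    have i3 : IntervalIntegrable (fun t => Real.sin (Real.pi * (t - T₁) / D)) volume T₁
        (T₁ + D) := csin.intervalIntegrable _ _
    have e2 : 1 / 2 * (1 / Q * (∫ t in T₁..(T₁ + D), Real.sin (Real.pi * (t - T₁) / D) *
          ‖f (a' + t * I)‖ ^ 2) + (Real.log Q - 1) * (2 * D / Real.pi)) =
        ∫ t in T₁..(T₁ + D), (1 / 2 * (1 / Q) * (Real.sin (Real.pi * (t - T₁) / D) *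
          ‖f (a' + t * I)‖ ^ 2) + 1 / 2 * (Real.log Q - 1) *
            Real.sin (Real.pi * (t - T₁) / D)) := by
      rw [intervalIntegral.integral_add (i2.const_mul _) (i3.const_mul _),
        intervalIntegral.integral_const_mul, intervalIntegral.integral_const_mul,
        integral_sin_D hD]
      ring
    rw [e2]
    apply intervalIntegral.integral_mono_on hle1 i1 ((i2.const_mul _).add (i3.const_mul _))
    intro t ht
    have h3 := hsin t ht.1 ht.2
    have h4 : 0 < ‖f (a' + t * I)‖ := norm_pos_iff.2 (hleft t ht)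
    have h5 : Real.log ‖f (a' + t * I)‖ ≤ 1 / 2 * (‖f (a' + t * I)‖ ^ 2 / Q - 1 + Real.log Q) := by
      have h6 := Real.log_le_sub_one_of_pos (show 0 < ‖f (a' + t * I)‖ ^ 2 / Q by positivity)
      rw [Real.log_div (by positivity) hQ.ne', Real.log_pow] at h6
      push_cast at h6
      linarith
    calc Real.log ‖f (a' + t * I)‖ * Real.sin (Real.pi * (t - T₁) / D)
        ≤ (1 / 2 * (‖f (a' + t * I)‖ ^ 2 / Q - 1 + Real.log Q)) *
          Real.sin (Real.pi * (t - T₁) / D) := by gcongr
      _ = _ := by ring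
  -- horizontal integral
  have e3 : (∫ x in a'..b, (Real.log ‖f (x + T₁ * I)‖ +
      Real.log ‖f (x + ((T₁ + D : ℝ) : ℂ) * I)‖) * Real.sinh (Real.pi * (x - a') / D)) ≤
      2 * (b - a') * Real.sinh (Real.pi * (b - a') / D) * Real.log M := by
    have i1 : IntervalIntegrable (fun x : ℝ => (Real.log ‖f (x + T₁ * I)‖ +
        Real.log ‖f (x + ((T₁ + D : ℝ) : ℂ) * I)‖) * Real.sinh (Real.pi * (x - a') / D))
        volume a' b := by
      apply ContinuousOn.intervalIntegrable
      rw [uIcc_of_le hab.le]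
      apply ContinuousOn.mul
      · exact ((chor T₁ h1).norm.log fun x hx => norm_ne_zero_iff.2 (hhor x hx).1).add
          ((chor (T₁ + D) (by linarith)).norm.log fun x hx => norm_ne_zero_iff.2 (hhor x hx).2)
      · fun_prop
    have e4 : 2 * (b - a') * Real.sinh (Real.pi * (b - a') / D) * Real.log M =
        ∫ _x in a'..b, 2 * Real.log M * Real.sinh (Real.pi * (b - a') / D) := by
      rw [intervalIntegral.integral_const, smul_eq_mul]
      ring
    rw [e4]
    apply intervalIntegral.integral_mono_on hab.le i1 (by simp)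
    intro x hx
    have h3 : Real.log ‖f (x + T₁ * I)‖ ≤ Real.log M := by
      apply Real.log_le_log (norm_pos_iff.2 (hhor x hx).1)
      apply hbd <;> simp <;> linarith [hx.1, hx.2]
    have h4 : Real.log ‖f (x + ((T₁ + D : ℝ) : ℂ) * I)‖ ≤ Real.log M := by
      apply Real.log_le_log (norm_pos_iff.2 (hhor x hx).2)
      apply hbd
      · simp
        linarith [hx.1]
      · simpa using hx.2
      · have : ((x : ℂ) + ((T₁ + D : ℝ) : ℂ) * I).im = T₁ + D := by simp
        rw [this]
        linarith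
      · have : ((x : ℂ) + ((T₁ + D : ℝ) : ℂ) * I).im = T₁ + D := by simp
        rw [this]
        linarith
    have h5 : 0 ≤ Real.sinh (Real.pi * (x - a') / D) := by
      rw [Real.sinh_nonneg_iff]
      have : 0 ≤ x - a' := by linarith [hx.1]
      positivity
    have h6 : Real.sinh (Real.pi * (x - a') / D) ≤ Real.sinh (Real.pi * (b - a') / D) := by
      rw [Real.sinh_le_sinh]
      have := hx.2
      gcongr
    calc (Real.log ‖f (x + T₁ * I)‖ + Real.log ‖f (x + ((T₁ + D : ℝ) : ℂ) * I)‖) *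
          Real.sinh (Real.pi * (x - a') / D)
        ≤ (2 * Real.log M) * Real.sinh (Real.pi * (x - a') / D) := by
          gcongr
          linarith
      _ ≤ 2 * Real.log M * Real.sinh (Real.pi * (b - a') / D) := by gcongr
  have h7 := (abs_le.1 hmain).2
  have h8 : 2 * Real.pi * ∑ ρ ∈ S, (m ρ : ℝ) * (D / Real.pi * Real.sinh (Real.pi *
        max 0 (ρ.re - a') / D)) * Real.sin (Real.pi * (ρ.im - T₁) / D) ≤
      2 * Real.pi * ∑ z ∈ Z, (analyticOrderNatAt f z : ℝ) * (D / Real.pi * Real.sinh (Real.pi *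
        (z.re - a') / D)) * Real.sin (Real.pi * (z.im - T₁) / D) := by gcongr
  linarith

end Pool.Agent.H18.PZ
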