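import Pool.Agent.H18.PZ.Fac

/-!
Module CA of MP_9f0eeb_nt (positive proportion): Carleman formula for a rectangle.
-/

set_option autoImplicit false

open Complex MeasureTheory Set Filter Topology

namespace Pool.Agent.H18.PZ

open Pool.Agent.H28.MZ

lemma weighted_residue (hRC : T_RC) {K : ℂ → ℂ} (hK : Differentiable ℂ K) {f : ℂ → ℂ}
    {a b c d : ℝ} (hab : a < b) (hcd : c < d) {U : Set ℂ} (hf : ∀ s ∈ U, AnalyticAt ℂ f s)
    (hR : ∀ s : ℂ, a ≤ s.re → s.re ≤ b → c ≤ s.im → s.im ≤ d → s ∈ U) (Z : Finset ℂ)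
    (hZ : ∀ z : ℂ, z ∈ Z ↔ a < z.re ∧ z.re < b ∧ c < z.im ∧ z.im < d ∧ f z = 0)
    (hord : ∀ z ∈ Z, analyticOrderAt f z ≠ ⊤)
    (hb : ∀ x ∈ Icc a b, f (x + c * I) ≠ 0 ∧ f (x + d * I) ≠ 0)
    (hl : ∀ t ∈ Icc c d, f (a + t * I) ≠ 0 ∧ f (b + t * I) ≠ 0) :
    (∫ x in a..b, K (x + c * I) * (deriv f (x + c * I) / f (x + c * I))) +
      I * (∫ t in c..d, K (b + t * I) * (deriv f (b + t * I) / f (b + t * I))) -
      (∫ x in a..b, K (x + d * I) * (deriv f (x + d * I) / f (x + d * I))) -
      I * (∫ t in c..d, K (a + t * I) * (deriv f (a + t * I) / f (a + t * I))) =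
      2 * Real.pi * I * ∑ z ∈ Z, (analyticOrderNatAt f z : ℂ) * K z := by
  classical
  obtain ⟨g, hg, hfg, hgz⟩ := factor hf Z (fun z hz => by
    obtain ⟨h1, h2, h3, h4, _⟩ := (hZ z).1 hz
    exact ⟨hR z h1.le h2.le h3.le h4.le, hord z hz⟩)
  have hgR : ∀ s : ℂ, a ≤ s.re → s.re ≤ b → c ≤ s.im → s.im ≤ d → g s ≠ 0 := by
    intro s h1 h2 h3 h4 h0
    have hfs : f s = 0 := by rw [hfg s, h0, mul_zero]
    have hsZ : s ∉ Z := fun h => hgz s h h0
    have hs : s = (s.re : ℂ) + s.im * I := (Complex.re_add_im s).symm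
    rcases eq_or_lt_of_le h1 with h5 | h5
    · apply (hl s.im ⟨h3, h4⟩).1
      rw [h5, ← hs]
      exact hfs
    rcases eq_or_lt_of_le h2 with h6 | h6
    · apply (hl s.im ⟨h3, h4⟩).2
      rw [← h6, ← hs]
      exact hfs
    rcases eq_or_lt_of_le h3 with h7 | h7
    · apply (hb s.re ⟨h1, h2⟩).1
      rw [h7, ← hs]
      exact hfs
    rcases eq_or_lt_of_le h4 with h8 | h8
    · apply (hb s.re ⟨h1, h2⟩).2
      rw [← h8, ← hs]
      exact hfs
    exact hsZ ((hZ s).2 ⟨h5, h6, h7, h8, hfs⟩)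
  -- the part of `g`
  have hG : DifferentiableOn ℂ (fun s => K s * (deriv g s / g s)) (uIcc a b ×ℂ uIcc c d) := by
    intro s hs
    rw [uIcc_of_le hab.le, uIcc_of_le hcd.le, mem_reProdIm] at hs
    obtain ⟨⟨h1, h2⟩, h3, h4⟩ := hs
    have h5 := hg s (hR s h1 h2 h3 h4)
    exact (hK.differentiableAt.mul (h5.deriv.differentiableAt.div h5.differentiableAt
      (hgR s h1 h2 h3 h4))).differentiableWithinAt
  have hzero := Complex.integral_boundary_rect_eq_zero_of_differentiableOn
    (fun s => K s * (deriv g s / g s)) ((a : ℂ) + c * I) ((b : ℂ) + d * I) (by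
      simpa using hG)
  simp only [add_re, ofReal_re, mul_re, I_re, mul_zero, ofReal_im, I_im, mul_one, sub_self,
    add_zero, add_im, mul_im, zero_add, smul_eq_mul] at hzero
  -- the sides
  have key : ∀ (γ : ℝ → ℂ), Continuous γ → ∀ u v : ℝ, u ≤ v →
      (∀ t ∈ Icc u v, a ≤ (γ t).re ∧ (γ t).re ≤ b ∧ c ≤ (γ t).im ∧ (γ t).im ≤ d ∧
        f (γ t) ≠ 0) →
      (∫ t in u..v, K (γ t) * (deriv f (γ t) / f (γ t))) =
        ∑ z ∈ Z, (analyticOrderNatAt f z : ℂ) * (∫ t in u..v, K (γ t) / (γ t - z)) +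
          ∫ t in u..v, K (γ t) * (deriv g (γ t) / g (γ t)) := by
    intro γ hγ u v huv hin
    have hne : ∀ t ∈ Icc u v, ∀ z ∈ Z, γ t - z ≠ 0 := by
      intro t ht z hz h0
      rw [sub_eq_zero] at h0
      apply (hin t ht).2.2.2.2
      rw [h0]
      exact ((hZ z).1 hz).2.2.2.2
    have hKγ : Continuous fun t => K (γ t) := hK.continuous.comp hγ
    have hi1 : ∀ z ∈ Z, IntervalIntegrable (fun t => K (γ t) / (γ t - z)) volume u v := by
      intro z hz
      apply ContinuousOn.intervalIntegrable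
      rw [uIcc_of_le huv]
      exact hKγ.continuousOn.div (hγ.continuousOn.sub continuousOn_const)
        fun t ht => hne t ht z hz
    have hi2 : IntervalIntegrable (fun t => K (γ t) * (deriv g (γ t) / g (γ t))) volume u v := by
      apply ContinuousOn.intervalIntegrable
      rw [uIcc_of_le huv]
      apply hKγ.continuousOn.mul
      apply ContinuousOn.div
      · intro t ht
        obtain ⟨h1, h2, h3, h4, _⟩ := hin t ht
        exact ((hg _ (hR _ h1 h2 h3 h4)).deriv.continuousAt.comp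
          hγ.continuousAt).continuousWithinAt
      · intro t ht
        obtain ⟨h1, h2, h3, h4, _⟩ := hin t ht
        exact ((hg _ (hR _ h1 h2 h3 h4)).continuousAt.comp hγ.continuousAt).continuousWithinAt
      · intro t ht
        obtain ⟨h1, h2, h3, h4, _⟩ := hin t ht
        exact hgR _ h1 h2 h3 h4
    have hsum : IntervalIntegrable (fun t => ∑ z ∈ Z, (analyticOrderNatAt f z : ℂ) *
        (K (γ t) / (γ t - z))) volume u v := by
      have h1 := IntervalIntegrable.sum Z (f := fun z t => (analyticOrderNatAt f z : ℂ) *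
        (K (γ t) / (γ t - z))) (μ := volume) (a := u) (b := v)
        (fun z hz => (hi1 z hz).const_mul _)
      convert! h1 using 1
      funext t
      simp
    rw [show (∑ z ∈ Z, (analyticOrderNatAt f z : ℂ) * (∫ t in u..v, K (γ t) / (γ t - z))) =
        ∫ t in u..v, ∑ z ∈ Z, (analyticOrderNatAt f z : ℂ) * (K (γ t) / (γ t - z)) by
      rw [intervalIntegral.integral_finsetSum (fun z hz => (hi1 z hz).const_mul _)]
      exact Finset.sum_congr rfl fun z _ => (intervalIntegral.integral_const_mul _ _).symm]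
    rw [← intervalIntegral.integral_add hsum hi2]
    apply intervalIntegral.integral_congr
    intro t ht
    rw [uIcc_of_le huv] at ht
    obtain ⟨h1, h2, h3, h4, h5⟩ := hin t ht
    show K (γ t) * (deriv f (γ t) / f (γ t)) = ∑ z ∈ Z, (analyticOrderNatAt f z : ℂ) *
      (K (γ t) / (γ t - z)) + K (γ t) * (deriv g (γ t) / g (γ t))
    rw [factor_logDeriv hfg (hg _ (hR _ h1 h2 h3 h4)).differentiableAt h5, mul_add,
      Finset.mul_sum]
    congr 1
    refine Finset.sum_congr rfl fun z _ => ?_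
    ring
  have q1 := key (fun x : ℝ => (x : ℂ) + c * I) (by fun_prop) a b hab.le (fun x hx => by
    simp only [add_re, ofReal_re, mul_re, I_re, mul_zero, ofReal_im, I_im, mul_one, sub_self,
      add_zero, add_im, mul_im, zero_add]
    exact ⟨hx.1, hx.2, le_refl c, hcd.le, (hb x hx).1⟩)
  have q2 := key (fun t : ℝ => (b : ℂ) + t * I) (by fun_prop) c d hcd.le (fun t ht => by
    simp only [add_re, ofReal_re, mul_re, I_re, mul_zero, ofReal_im, I_im, mul_one, sub_self,
      add_zero, add_im, mul_im, zero_add]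
    exact ⟨hab.le, le_refl b, ht.1, ht.2, (hl t ht).2⟩)
  have q3 := key (fun x : ℝ => (x : ℂ) + d * I) (by fun_prop) a b hab.le (fun x hx => by
    simp only [add_re, ofReal_re, mul_re, I_re, mul_zero, ofReal_im, I_im, mul_one, sub_self,
      add_zero, add_im, mul_im, zero_add]
    exact ⟨hx.1, hx.2, hcd.le, le_refl d, (hb x hx).2⟩)
  have q4 := key (fun t : ℝ => (a : ℂ) + t * I) (by fun_prop) c d hcd.le (fun t ht => by
    simp only [add_re, ofReal_re, mul_re, I_re, mul_zero, ofReal_im, I_im, mul_one, sub_self,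
      add_zero, add_im, mul_im, zero_add]
    exact ⟨le_refl a, hab.le, ht.1, ht.2, (hl t ht).1⟩)
  rw [q1, q2, q3, q4]
  have hres : ∑ z ∈ Z, (analyticOrderNatAt f z : ℂ) *
      ((∫ x in a..b, K (x + c * I) / (x + c * I - z)) +
        I * (∫ t in c..d, K (b + t * I) / (b + t * I - z)) -
        (∫ x in a..b, K (x + d * I) / (x + d * I - z)) -
        I * (∫ t in c..d, K (a + t * I) / (a + t * I - z))) =
      ∑ z ∈ Z, (analyticOrderNatAt f z : ℂ) * (2 * Real.pi * I * K z) := by
    refine Finset.sum_congr rfl fun z hz => ?_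
    obtain ⟨h1, h2, h3, h4, _⟩ := (hZ z).1 hz
    rw [hRC K a b c d z hK h1 h2 h3 h4]
  have hexp : ∑ z ∈ Z, (analyticOrderNatAt f z : ℂ) *
      ((∫ x in a..b, K (x + c * I) / (x + c * I - z)) +
        I * (∫ t in c..d, K (b + t * I) / (b + t * I - z)) -
        (∫ x in a..b, K (x + d * I) / (x + d * I - z)) -
        I * (∫ t in c..d, K (a + t * I) / (a + t * I - z))) =
      ∑ z ∈ Z, (analyticOrderNatAt f z : ℂ) * (∫ x in a..b, K (x + c * I) / (x + c * I - z)) +
      I * ∑ z ∈ Z, (analyticOrderNatAt f z : ℂ) *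
        (∫ t in c..d, K (b + t * I) / (b + t * I - z)) -
      ∑ z ∈ Z, (analyticOrderNatAt f z : ℂ) * (∫ x in a..b, K (x + d * I) / (x + d * I - z)) -
      I * ∑ z ∈ Z, (analyticOrderNatAt f z : ℂ) *
        (∫ t in c..d, K (a + t * I) / (a + t * I - z)) := by
    rw [Finset.mul_sum, Finset.mul_sum, ← Finset.sum_add_distrib, ← Finset.sum_sub_distrib,
      ← Finset.sum_sub_distrib]
    refine Finset.sum_congr rfl fun z _ => ?_
    ring
  have hfin : ∑ z ∈ Z, (analyticOrderNatAt f z : ℂ) * (2 * Real.pi * I * K z) =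
      2 * Real.pi * I * ∑ z ∈ Z, (analyticOrderNatAt f z : ℂ) * K z := by
    rw [Finset.mul_sum]
    refine Finset.sum_congr rfl fun z _ => ?_
    ring
  rw [hexp, hfin] at hres
  linear_combination hres + hzero

lemma re_integral {φ : ℝ → ℂ} {u v : ℝ} (h : ContinuousOn φ (uIcc u v)) :
    (∫ t in u..v, φ t).re = ∫ t in u..v, (φ t).re := by
  have := (Complex.reCLM.intervalIntegral_comp_comm (h.intervalIntegrable (μ := volume))).symm
  simpa using this

lemma norm_cosh_le (z : ℂ) : ‖Complex.cosh z‖ ≤ Real.cosh z.re := by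
  unfold Complex.cosh
  rw [norm_div, Complex.norm_two, Real.cosh_eq]
  have h1 := norm_add_le (cexp z) (cexp (-z))
  rw [Complex.norm_exp, Complex.norm_exp, neg_re] at h1
  gcongr

lemma hd_comp {f : ℂ → ℂ} {γ : ℝ → ℂ} {γ' : ℂ} {t : ℝ}
    (hf : HasDerivAt f (deriv f (γ t)) (γ t)) (hγ : HasDerivAt γ γ' t) :
    HasDerivAt (fun t => f (γ t)) (γ' * deriv f (γ t)) t := hf.scomp t hγ

/-- integration by parts against the logarithm of the modulus -/
lemma parts {w : ℝ → ℂ} {w' : ℝ → ℂ} {u u' : ℝ → ℝ} {a b : ℝ}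
    (hw : ∀ t ∈ uIcc a b, HasDerivAt w (w' t) t) (hne : ∀ t ∈ uIcc a b, w t ≠ 0)
    (hc : ContinuousOn w' (uIcc a b)) (hu : ∀ t, HasDerivAt u (u' t) t) (hu' : Continuous u') :
    ∫ t in a..b, u t * (w' t / w t).re =
      u b * Real.log ‖w b‖ - u a * Real.log ‖w a‖ - ∫ t in a..b, u' t * Real.log ‖w t‖ := by
  refine intervalIntegral.integral_mul_deriv_eq_deriv_mul (fun t _ => hu t)
    (fun t ht => hasDerivAt_log_norm (hw t ht) (hne t ht)) (hu'.intervalIntegrable _ _) ?_
  apply ContinuousOn.intervalIntegrable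
  have h1 : ContinuousOn w (uIcc a b) := fun t ht => (hw t ht).continuousAt.continuousWithinAt
  exact Complex.continuous_re.comp_continuousOn (hc.div h1 hne)

theorem ca (hRC : T_RC) : T_CA := by
  classical
  intro f a b T₁ T₂ e hab hT1 hT12 hdiff hleft hhor hright
  set D := T₂ - T₁ with hD
  have hDpos : 0 < D := by rw [hD]; linarith
  have hpi := Real.pi_pos
  set U : Set ℂ := {s | T₁ / 2 < s.im} with hU
  have hUopen : IsOpen U := isOpen_lt continuous_const Complex.continuous_im
  have hUconv : Convex ℝ U := convex_halfSpace_im_gt (T₁ / 2)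
  have hUpre : IsPreconnected U := hUconv.isPreconnected
  have hdOn : DifferentiableOn ℂ f U := fun s hs => (hdiff s hs).differentiableWithinAt
  have hfU : AnalyticOnNhd ℂ f U := hdOn.analyticOnNhd hUopen
  have hR : ∀ s : ℂ, a ≤ s.re → s.re ≤ b → T₁ ≤ s.im → s.im ≤ T₂ → s ∈ U := by
    intro s _ _ h3 _
    show T₁ / 2 < s.im
    linarith
  have hs0 : f (a + T₁ * I) ≠ 0 := hleft T₁ ⟨le_refl _, hT12.le⟩
  have hs0U : (a + T₁ * I : ℂ) ∈ U := by
    apply hR <;> simp <;> linarith
  -- the zeros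
  have hcomp : IsCompact (Icc a b ×ℂ Icc T₁ T₂) := isCompact_Icc.reProdIm isCompact_Icc
  have hfin := zeros_finite hUpre hfU hs0U hs0 hcomp (by
    intro s hs
    rw [mem_reProdIm] at hs
    exact hR s hs.1.1 hs.1.2 hs.2.1 hs.2.2)
  have hfin2 : {z : ℂ | a < z.re ∧ z.re < b ∧ T₁ < z.im ∧ z.im < T₂ ∧ f z = 0}.Finite := by
    refine hfin.subset ?_
    rintro z ⟨h1, h2, h3, h4, h5⟩
    exact ⟨mem_reProdIm.2 ⟨⟨h1.le, h2.le⟩, h3.le, h4.le⟩, h5⟩
  set Z := hfin2.toFinset with hZdef
  have hZ : ∀ z : ℂ, z ∈ Z ↔ a < z.re ∧ z.re < b ∧ T₁ < z.im ∧ z.im < T₂ ∧ f z = 0 := by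
    intro z
    rw [hZdef, Set.Finite.mem_toFinset]
    rfl
  refine ⟨Z, hZ, ?_⟩
  -- the kernel
  set K : ℂ → ℂ := fun s => ((D / Real.pi : ℝ) : ℂ) *
    Complex.cosh ((Real.pi / D : ℝ) * (s - a - T₁ * I)) with hK
  have hKd : Differentiable ℂ K := by
    intro s
    apply DifferentiableAt.const_mul
    apply DifferentiableAt.ccosh
    fun_prop
  have hmain := weighted_residue hRC hKd hab hT12 hfU hR Z hZ (fun z hz => by
      obtain ⟨h1, h2, h3, h4, _⟩ := (hZ z).1 hz
      exact order_ne_top hUpre hfU hs0U hs0 (hR z h1.le h2.le h3.le h4.le))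
    hhor (fun t ht => ⟨hleft t ht, (hright t ht).1⟩)
  -- values of the kernel
  have hKb : ∀ x : ℝ, K (x + T₁ * I) = ((D / Real.pi * Real.cosh (Real.pi / D * (x - a)) : ℝ) : ℂ) := by
    intro x
    rw [hK]
    simp only
    rw [show ((x : ℂ) + T₁ * I - a - T₁ * I) = ((x - a : ℝ) : ℂ) by push_cast; ring]
    push_cast
    rfl
  have hKt : ∀ x : ℝ, K (x + T₂ * I) =
      ((-(D / Real.pi * Real.cosh (Real.pi / D * (x - a))) : ℝ) : ℂ) := by
    intro x
    rw [hK]
    simp only
    have h1 : ((Real.pi / D : ℝ) : ℂ) * ((x : ℂ) + T₂ * I - a - T₁ * I) =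
        ((Real.pi / D * (x - a) : ℝ) : ℂ) + Real.pi * I := by
      have h2 : (D : ℂ) ≠ 0 := by exact_mod_cast hDpos.ne'
      have h3 : ((T₂ : ℂ) - T₁) = D := by rw [hD]; push_cast; ring
      push_cast
      field_simp
      linear_combination (I : ℂ) * h3
    rw [h1, Complex.cosh_add, Complex.cosh_mul_I, Complex.sinh_mul_I, Complex.cos_pi,
      Complex.sin_pi]
    push_cast
    ring
  have hKl : ∀ t : ℝ, K (a + t * I) = ((D / Real.pi * Real.cos (Real.pi / D * (t - T₁)) : ℝ) : ℂ) := by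
    intro t
    rw [hK]
    simp only
    have h1 : ((Real.pi / D : ℝ) : ℂ) * ((a : ℂ) + t * I - a - T₁ * I) =
        ((Real.pi / D * (t - T₁) : ℝ) : ℂ) * I := by
      push_cast
      ring
    rw [h1, Complex.cosh_mul_I]
    push_cast
    rfl
  have hKr : ∀ t : ℝ, ‖K (b + t * I)‖ ≤ D / Real.pi * Real.cosh (Real.pi / D * (b - a)) := by
    intro t
    rw [hK]
    simp only
    rw [norm_mul, Complex.norm_real, Real.norm_eq_abs, abs_of_pos (by positivity)]
    have h1 := norm_cosh_le (((Real.pi / D : ℝ) : ℂ) * ((b : ℂ) + t * I - a - T₁ * I))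
    have h2 : (((Real.pi / D : ℝ) : ℂ) * ((b : ℂ) + t * I - a - T₁ * I)).re =
        Real.pi / D * (b - a) := by
      simp [mul_re]
    rw [h2] at h1
    gcongr
  have hKz : ∀ z : ℂ, (K z).im = D / Real.pi * (Real.sinh (Real.pi / D * (z.re - a)) *
      Real.sin (Real.pi / D * (z.im - T₁))) := by
    intro z
    rw [hK]
    simp only
    rw [Complex.im_ofReal_mul]
    congr 1
    have h1 : ((Real.pi / D : ℝ) : ℂ) * (z - a - T₁ * I) =
        ((Real.pi / D * (z.re - a) : ℝ) : ℂ) + ((Real.pi / D * (z.im - T₁) : ℝ) : ℂ) * I := by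
      apply Complex.ext
      · simp [mul_re]
      · simp [mul_im]
    rw [h1]
    generalize Real.pi / D * (z.re - a) = A
    generalize Real.pi / D * (z.im - T₁) = B
    rw [Complex.cosh_add, Complex.cosh_mul_I, Complex.sinh_mul_I]
    rw [← Complex.ofReal_cosh, ← Complex.ofReal_cos, ← Complex.ofReal_sinh, ← Complex.ofReal_sin]
    simp [add_im, mul_im, Complex.sinh_ofReal_re, Complex.sin_ofReal_re]
  -- derivatives along the sides
  have hder : ∀ s ∈ U, HasDerivAt f (deriv f s) s := fun s hs => (hdiff s hs).hasDerivAt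
  have hcd : ContinuousOn (deriv f) U := hfU.deriv.continuousOn
  have hbU : ∀ x ∈ Icc a b, ((x : ℂ) + T₁ * I) ∈ U := fun x hx => by
    apply hR
    · simpa using hx.1
    · simpa using hx.2
    · simp
    · simpa using hT12.le
  have htU : ∀ x ∈ Icc a b, ((x : ℂ) + T₂ * I) ∈ U := fun x hx => by
    apply hR
    · simpa using hx.1
    · simpa using hx.2
    · simpa using hT12.le
    · simp
  have hlU : ∀ t ∈ Icc T₁ T₂, ((a : ℂ) + t * I) ∈ U := fun x hx => by
    apply hR
    · simp
    · simpa using hab.le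
    · simpa using hx.1
    · simpa using hx.2
  have hrU : ∀ t ∈ Icc T₁ T₂, ((b : ℂ) + t * I) ∈ U := fun x hx => by
    apply hR
    · simpa using hab.le
    · simp
    · simpa using hx.1
    · simpa using hx.2
  have dh : ∀ (c x : ℝ), HasDerivAt (fun x : ℝ => (x : ℂ) + c * I) 1 x := fun c x => by
    have h2 : HasDerivAt (fun t : ℝ => (t : ℂ)) 1 x := Complex.ofRealCLM.hasDerivAt
    exact h2.add_const _
  have dv : ∀ (c t : ℝ), HasDerivAt (fun t : ℝ => (c : ℂ) + t * I) I t := fun c t => by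
    have h2 : HasDerivAt (fun t : ℝ => (t : ℂ)) 1 t := Complex.ofRealCLM.hasDerivAt
    simpa using (h2.mul_const I).const_add (c : ℂ)
  -- bottom
  have uIab : uIcc a b = Icc a b := uIcc_of_le hab.le
  have uIcd : uIcc T₁ T₂ = Icc T₁ T₂ := uIcc_of_le hT12.le
  have dcosh : ∀ x : ℝ, HasDerivAt (fun x => D / Real.pi * Real.cosh (Real.pi / D * (x - a)))
      (Real.sinh (Real.pi / D * (x - a))) x := by
    intro x
    have h1 : HasDerivAt (fun x => Real.pi / D * (x - a)) (Real.pi / D * 1) x :=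
      ((hasDerivAt_id x).sub_const a).const_mul _
    have h2 := (h1.cosh).const_mul (D / Real.pi)
    convert! h2 using 1
    field_simp
  have dcos : ∀ t : ℝ, HasDerivAt (fun t => D / Real.pi * Real.cos (Real.pi / D * (t - T₁)))
      (-Real.sin (Real.pi / D * (t - T₁))) t := by
    intro t
    have h1 : HasDerivAt (fun x => Real.pi / D * (x - T₁)) (Real.pi / D * 1) t :=
      ((hasDerivAt_id t).sub_const T₁).const_mul _
    have h2 := (h1.cos).const_mul (D / Real.pi)
    convert! h2 using 1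
    field_simp
  have pb := parts (w := fun x : ℝ => f (x + T₁ * I)) (w' := fun x : ℝ => deriv f (x + T₁ * I))
    (u := fun x => D / Real.pi * Real.cosh (Real.pi / D * (x - a)))
    (u' := fun x => Real.sinh (Real.pi / D * (x - a))) (a := a) (b := b)
    (fun x hx => by
      rw [uIab] at hx
      have := hd_comp (γ := fun x : ℝ => (x : ℂ) + T₁ * I) (hder _ (hbU x hx)) (dh T₁ x)
      rwa [one_mul] at this)
    (fun x hx => by rw [uIab] at hx; exact (hhor x hx).1)
    (by
      rw [uIab]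
      exact hcd.comp (by fun_prop) hbU) dcosh (by fun_prop)
  have pt := parts (w := fun x : ℝ => f (x + T₂ * I)) (w' := fun x : ℝ => deriv f (x + T₂ * I))
    (u := fun x => D / Real.pi * Real.cosh (Real.pi / D * (x - a)))
    (u' := fun x => Real.sinh (Real.pi / D * (x - a))) (a := a) (b := b)
    (fun x hx => by
      rw [uIab] at hx
      have := hd_comp (γ := fun x : ℝ => (x : ℂ) + T₂ * I) (hder _ (htU x hx)) (dh T₂ x)
      rwa [one_mul] at this)
    (fun x hx => by rw [uIab] at hx; exact (hhor x hx).2)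
    (by
      rw [uIab]
      exact hcd.comp (by fun_prop) htU) dcosh (by fun_prop)
  have pl := parts (w := fun t : ℝ => f (a + t * I)) (w' := fun t : ℝ => I * deriv f (a + t * I))
    (u := fun t => D / Real.pi * Real.cos (Real.pi / D * (t - T₁)))
    (u' := fun t => -Real.sin (Real.pi / D * (t - T₁))) (a := T₁) (b := T₂)
    (fun x hx => by
      rw [uIcd] at hx
      exact hd_comp (γ := fun t : ℝ => (a : ℂ) + t * I) (hder _ (hlU x hx)) (dv a x))
    (fun x hx => by rw [uIcd] at hx; exact hleft x hx)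
    (by
      rw [uIcd]
      exact continuousOn_const.mul (hcd.comp (by fun_prop) hlU)) dcos (by fun_prop)
  -- continuity of the integrands
  have hfc : ContinuousOn f U := hdOn.continuousOn
  have cb : ContinuousOn (fun x : ℝ => K (x + T₁ * I) * (deriv f (x + T₁ * I) / f (x + T₁ * I)))
      (uIcc a b) := by
    rw [uIab]
    apply ContinuousOn.mul (hKd.continuous.comp_continuousOn (by fun_prop))
    exact (hcd.comp (by fun_prop) hbU).div (hfc.comp (by fun_prop) hbU) fun x hx => (hhor x hx).1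
  have ct : ContinuousOn (fun x : ℝ => K (x + T₂ * I) * (deriv f (x + T₂ * I) / f (x + T₂ * I)))
      (uIcc a b) := by
    rw [uIab]
    apply ContinuousOn.mul (hKd.continuous.comp_continuousOn (by fun_prop))
    exact (hcd.comp (by fun_prop) htU).div (hfc.comp (by fun_prop) htU) fun x hx => (hhor x hx).2
  have cl : ContinuousOn (fun t : ℝ => I * (K (a + t * I) *
      (deriv f (a + t * I) / f (a + t * I)))) (uIcc T₁ T₂) := by
    rw [uIcd]
    apply ContinuousOn.mul continuousOn_const
    apply ContinuousOn.mul (hKd.continuous.comp_continuousOn (by fun_prop))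
    exact (hcd.comp (by fun_prop) hlU).div (hfc.comp (by fun_prop) hlU) fun x hx => hleft x hx
  have rb : (∫ x in a..b, K (x + T₁ * I) * (deriv f (x + T₁ * I) / f (x + T₁ * I))).re =
      ∫ x in a..b, D / Real.pi * Real.cosh (Real.pi / D * (x - a)) *
        (deriv f (x + T₁ * I) / f (x + T₁ * I)).re := by
    rw [re_integral cb]
    apply intervalIntegral.integral_congr
    intro x _
    show (K (x + T₁ * I) * _).re = _
    rw [hKb, Complex.re_ofReal_mul]
  have rt : (∫ x in a..b, K (x + T₂ * I) * (deriv f (x + T₂ * I) / f (x + T₂ * I))).re =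
      -∫ x in a..b, D / Real.pi * Real.cosh (Real.pi / D * (x - a)) *
        (deriv f (x + T₂ * I) / f (x + T₂ * I)).re := by
    rw [re_integral ct, ← intervalIntegral.integral_neg]
    apply intervalIntegral.integral_congr
    intro x _
    show (K (x + T₂ * I) * _).re = _
    rw [hKt, Complex.re_ofReal_mul]
    ring
  have rl : (I * ∫ t in T₁..T₂, K (a + t * I) * (deriv f (a + t * I) / f (a + t * I))).re =
      ∫ t in T₁..T₂, D / Real.pi * Real.cos (Real.pi / D * (t - T₁)) *
        (I * deriv f (a + t * I) / f (a + t * I)).re := by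
    rw [← intervalIntegral.integral_const_mul, re_integral cl]
    apply intervalIntegral.integral_congr
    intro t _
    show (I * (K (a + t * I) * (deriv f (a + t * I) / f (a + t * I)))).re =
      D / Real.pi * Real.cos (Real.pi / D * (t - T₁)) * (I * deriv f (a + t * I) / f (a + t * I)).re
    rw [hKl, ← Complex.re_ofReal_mul]
    congr 1
    ring
  -- the right side
  set B := D / Real.pi * Real.cosh (Real.pi / D * (b - a)) with hB
  have hB0 : 0 ≤ B := by
    have := Real.cosh_pos (Real.pi / D * (b - a))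
    positivity
  have he0 : 0 ≤ e := (abs_nonneg _).trans (hright T₁ ⟨le_refl _, hT12.le⟩).2.1
  have rr : ‖I * ∫ t in T₁..T₂, K (b + t * I) * (deriv f (b + t * I) / f (b + t * I))‖ ≤
      B * e * D := by
    rw [norm_mul, Complex.norm_I, one_mul]
    have h1 := intervalIntegral.norm_integral_le_of_norm_le_const (a := T₁) (b := T₂)
      (C := B * e) (f := fun t : ℝ => K (b + t * I) * (deriv f (b + t * I) / f (b + t * I))) (by
      intro t ht
      rw [uIoc_of_le hT12.le] at ht
      have ht' : t ∈ Icc T₁ T₂ := ⟨ht.1.le, ht.2⟩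
      obtain ⟨h2, _, h3⟩ := hright t ht'
      rw [norm_mul, norm_div]
      have h4 : ‖deriv f (b + t * I)‖ / ‖f (b + t * I)‖ ≤ e := by
        rw [div_le_iff₀ (norm_pos_iff.2 h2)]
        exact h3
      have h5 := hKr t
      gcongr)
    rwa [abs_of_pos (by linarith : (0 : ℝ) < T₂ - T₁), ← hD] at h1
  have rr2 := (Complex.abs_re_le_norm _).trans rr
  -- real part of the identity
  have hre := congrArg Complex.re hmain
  rw [Complex.sub_re, Complex.sub_re, Complex.add_re, rb, rt, rl] at hre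
  rw [pb, pt, pl] at hre
  have hrhs : (2 * Real.pi * I * ∑ z ∈ Z, (analyticOrderNatAt f z : ℂ) * K z).re =
      -(2 * Real.pi * ∑ z ∈ Z, (analyticOrderNatAt f z : ℝ) *
        (D / Real.pi * Real.sinh (Real.pi * (z.re - a) / D)) *
          Real.sin (Real.pi * (z.im - T₁) / D)) := by
    have h1 : (2 * Real.pi * I * ∑ z ∈ Z, (analyticOrderNatAt f z : ℂ) * K z : ℂ) =
        ((2 * Real.pi : ℝ) : ℂ) * (I * ∑ z ∈ Z, (analyticOrderNatAt f z : ℂ) * K z) := by
      push_cast
      ring
    rw [h1, Complex.re_ofReal_mul, Complex.I_mul_re, ← mul_neg, Complex.im_sum]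
    congr 2
    refine Finset.sum_congr rfl fun z _ => ?_
    have h2 : ((analyticOrderNatAt f z : ℂ) * K z).im = (analyticOrderNatAt f z : ℝ) * (K z).im := by
      rw [← Complex.ofReal_natCast, Complex.im_ofReal_mul]
    rw [h2, hKz]
    have h3 : Real.pi / D * (z.re - a) = Real.pi * (z.re - a) / D := by ring
    have h4 : Real.pi / D * (z.im - T₁) = Real.pi * (z.im - T₁) / D := by ring
    rw [h3, h4]
    ring
  rw [hrhs] at hre
  -- integrals
  have i1 : (∫ t in T₁..T₂, Real.log ‖f (a + t * I)‖ * Real.sin (Real.pi * (t - T₁) / D)) =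
      -∫ t in T₁..T₂, -Real.sin (Real.pi / D * (t - T₁)) * Real.log ‖f (a + t * I)‖ := by
    rw [← intervalIntegral.integral_neg]
    apply intervalIntegral.integral_congr
    intro t _
    have h4 : Real.pi / D * (t - T₁) = Real.pi * (t - T₁) / D := by ring
    simp only
    rw [h4]
    ring
  have lb : ContinuousOn (fun x : ℝ => Real.log ‖f (x + T₁ * I)‖) (uIcc a b) := by
    rw [uIab]
    apply ContinuousOn.log
    · exact (hfc.comp (by fun_prop) hbU).norm
    · intro x hx
      exact norm_ne_zero_iff.2 (hhor x hx).1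
  have lt : ContinuousOn (fun x : ℝ => Real.log ‖f (x + T₂ * I)‖) (uIcc a b) := by
    rw [uIab]
    apply ContinuousOn.log
    · exact (hfc.comp (by fun_prop) htU).norm
    · intro x hx
      exact norm_ne_zero_iff.2 (hhor x hx).2
  have sc : ContinuousOn (fun x : ℝ => Real.sinh (Real.pi / D * (x - a))) (uIcc a b) := by
    fun_prop
  have i2 : (∫ x in a..b, (Real.log ‖f (x + T₁ * I)‖ + Real.log ‖f (x + T₂ * I)‖) *
      Real.sinh (Real.pi * (x - a) / D)) =
      (∫ x in a..b, Real.sinh (Real.pi / D * (x - a)) * Real.log ‖f (x + T₁ * I)‖) +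
      ∫ x in a..b, Real.sinh (Real.pi / D * (x - a)) * Real.log ‖f (x + T₂ * I)‖ := by
    have s1 : IntervalIntegrable (fun x : ℝ => Real.sinh (Real.pi / D * (x - a)) *
        Real.log ‖f (x + T₁ * I)‖) volume a b := (sc.mul lb).intervalIntegrable
    have s2 : IntervalIntegrable (fun x : ℝ => Real.sinh (Real.pi / D * (x - a)) *
        Real.log ‖f (x + T₂ * I)‖) volume a b := (sc.mul lt).intervalIntegrable
    rw [← intervalIntegral.integral_add s1 s2]
    apply intervalIntegral.integral_congr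
    intro t _
    have h4 : Real.pi / D * (t - a) = Real.pi * (t - a) / D := by ring
    simp only
    rw [h4]
    ring
  rw [i1, i2]
  -- corners
  have k1 : Real.pi / D * (a - a) = 0 := by rw [sub_self, mul_zero]
  have k2 : Real.pi / D * (T₁ - T₁) = 0 := by rw [sub_self, mul_zero]
  have k3 : Real.pi / D * (T₂ - T₁) = Real.pi := by
    rw [← hD]
    field_simp
  rw [k1, k2, k3, Real.cosh_zero, Real.cos_zero, Real.cos_pi] at hre
  have l1 := (hright T₁ ⟨le_refl _, hT12.le⟩).2.1
  have l2 := (hright T₂ ⟨hT12.le, le_refl _⟩).2.1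
  have m1 : |B * Real.log ‖f (b + T₁ * I)‖| ≤ B * e := by
    rw [abs_mul, abs_of_nonneg hB0]
    gcongr
  have m2 : |B * Real.log ‖f (b + T₂ * I)‖| ≤ B * e := by
    rw [abs_mul, abs_of_nonneg hB0]
    gcongr
  have hBle : B * e * (D + 2) ≤ (D + 2) * D * Real.cosh (Real.pi * (b - a) / D) * e := by
    have h1 : B = D / Real.pi * Real.cosh (Real.pi * (b - a) / D) := by
      rw [hB]
      congr 2
      ring
    rw [h1]
    have h2 : D / Real.pi ≤ D := div_le_self hDpos.le (by linarith [Real.pi_gt_three])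
    have h3 := (Real.cosh_pos (Real.pi * (b - a) / D)).le
    calc D / Real.pi * Real.cosh (Real.pi * (b - a) / D) * e * (D + 2)
        ≤ D * Real.cosh (Real.pi * (b - a) / D) * e * (D + 2) := by gcongr
      _ = _ := by ring
  rw [abs_le] at m1 m2 rr2 ⊢
  constructor <;> linarith

end Pool.Agent.H18.PZ
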