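import Pool.Agent.H18.PZ.LB

/-!
Module LH of MP_9f0eeb_nt (positive proportion): a lower bound on horizontal segments.
-/

set_option autoImplicit false

open Complex MeasureTheory Set Filter Topology

namespace Pool.Agent.H18.PZ

open Pool.Agent.H28.MZ
open Pool.Agent.H23.GLH (PrimChar)

lemma lh_core (hCA : T_CA) (π : PrimChar) {T a P : ℝ} (hT : 10 ≤ T) (ha : 1 / 4 ≤ a)
    (ha2 : a ≤ 1 / 2) (hP : 0 ≤ P) (hne : ∀ x ∈ Icc a 4, π.L (x + T * I) ≠ 0)
    (hM : ∀ w : ℂ, 0 ≤ w.re → T ≤ w.im → w.im ≤ T + 21 → π.L w ≠ 0 →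
      Real.log ‖π.L w‖ ≤ P) :
    ∫ x in a..4, (x - a) * max 0 (-Real.log ‖π.L (x + T * I)‖) ≤ 7 * (37 * P + 966) := by
  have hpi := Real.pi_pos
  have hpi3 := Real.pi_lt_d2
  have hpi4 := Real.pi_gt_three
  have hF := L_zeros_finite π (a := 0) (b := 4) (T₁ := T) (T₂ := T + 21) (by linarith)
  set F : Set ℂ := {z | z ∈ Icc (0 : ℝ) 4 ×ℂ Icc T (T + 21) ∧ π.L z = 0} with hFdef
  have hFim : (Complex.im '' F).Finite := hF.image _
  -- choice of a'
  obtain ⟨a', ha'1, ha'2, ha'3⟩ : ∃ a' : ℝ, 0 < a' ∧ a' < a ∧ ∀ ρ ∈ F, ρ.re < a → ρ.re < a' := by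
    have h1 : ∀ᶠ x in 𝓝[<] a, 0 < x ∧ x < a ∧ ∀ ρ ∈ F, ρ.re < a → ρ.re < x := by
      have h2 : ∀ᶠ x in 𝓝[<] a, (0 : ℝ) < x := nhdsWithin_le_nhds (lt_mem_nhds (by linarith))
      have h3 : ∀ᶠ x in 𝓝[<] a, x < a := self_mem_nhdsWithin
      have h4 : ∀ᶠ x in 𝓝[<] a, ∀ ρ ∈ F, ρ.re < a → ρ.re < x := by
        rw [hF.eventually_all]
        intro ρ _
        by_cases h : ρ.re < a
        · have h5 : ∀ᶠ x in 𝓝[<] a, ρ.re < x := nhdsWithin_le_nhds (lt_mem_nhds h)
          exact h5.mono fun x hx _ => hx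
        · exact Eventually.of_forall fun x hx => absurd hx h
      exact h2.and (h3.and h4)
    obtain ⟨x, hx⟩ := h1.exists
    exact ⟨x, hx⟩
  -- choice of T₂
  obtain ⟨T₂, ⟨hT1, hT2⟩, hT3⟩ : ∃ T₂ ∈ Ioo (T + 20) (T + 21), T₂ ∉ Complex.im '' F := by
    have h1 : (Ioo (T + 20) (T + 21) \ (Complex.im '' F)).Infinite :=
      (Ioo_infinite (by linarith)).sdiff hFim
    obtain ⟨x, hx⟩ := h1.nonempty
    exact ⟨x, hx.1, hx.2⟩
  obtain ⟨D, hD⟩ : ∃ D, D = T₂ - T := ⟨_, rfl⟩
  have hD1 : 20 < D := by linarith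
  have hD2 : D < 21 := by linarith
  have hD0 : 0 < D := by linarith
  have memF : ∀ x t : ℝ, 0 ≤ x → x ≤ 4 → T ≤ t → t ≤ T + 21 → π.L (x + t * I) = 0 →
      ((x : ℂ) + t * I) ∈ F := by
    intro x t h1 h2 h3 h4 h5
    refine ⟨?_, h5⟩
    rw [Complex.mem_reProdIm]
    simp only [add_re, ofReal_re, mul_re, I_re, mul_zero, ofReal_im, I_im, mul_one,
      sub_self, add_zero, add_im, mul_im, zero_add, mem_Icc]
    exact ⟨⟨h1, h2⟩, h3, h4⟩
  have hleft : ∀ t ∈ Icc T T₂, π.L (a' + t * I) ≠ 0 := by
    intro t ht h0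
    have h1 := memF a' t ha'1.le (by linarith) ht.1 (by linarith [ht.2]) h0
    have h2 := ha'3 _ h1 (by simpa using ha'2)
    simp at h2
  have hbot : ∀ x ∈ Icc a' 4, π.L (x + T * I) ≠ 0 := by
    intro x hx h0
    by_cases h : a ≤ x
    · exact hne x ⟨h, hx.2⟩ h0
    · have h1 := memF x T (by linarith [hx.1]) hx.2 le_rfl (by linarith) h0
      have h2 := ha'3 _ h1 (by simpa using h)
      simp only [add_re, ofReal_re, mul_re, I_re, mul_zero, ofReal_im, I_im, mul_one,
        sub_self, add_zero] at h2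
      linarith [hx.1]
  have htop : ∀ x ∈ Icc a' 4, π.L (x + T₂ * I) ≠ 0 := by
    intro x hx h0
    have h1 := memF x T₂ (by linarith [hx.1]) hx.2 (by linarith) (by linarith) h0
    exact hT3 ⟨_, h1, by simp⟩
  have hright : ∀ t ∈ Icc T T₂, π.L (((4 : ℝ) : ℂ) + t * I) ≠ 0 ∧
      |Real.log ‖π.L (((4 : ℝ) : ℂ) + t * I)‖| ≤ 1 ∧
      ‖deriv π.L (((4 : ℝ) : ℂ) + t * I)‖ ≤ 1 * ‖π.L (((4 : ℝ) : ℂ) + t * I)‖ := by
    intro t ht
    obtain ⟨h1, h2, h3⟩ := L_right π (b := 4) (t := t) le_rfl (by linarith [ht.1])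
    have h4 : 12 * (2 : ℝ) ^ (-(4 : ℝ)) ≤ 1 := by
      rw [show (-(4 : ℝ)) = ((-4 : ℤ) : ℝ) by norm_num, Real.rpow_intCast]
      norm_num
    refine ⟨h1, h2.trans h4, h3.trans ?_⟩
    exact mul_le_mul_of_nonneg_right h4 (norm_nonneg _)
  obtain ⟨Z, hZ, hmain⟩ := hCA π.L a' 4 T T₂ 1 (by linarith) (by linarith) (by linarith)
    (fun s hs => diffL π (by linarith)) hleft (fun x hx => ⟨hbot x hx, htop x hx⟩) hright
  rw [← hD] at hmain
  -- elementary bounds for sinh and cosh
  have harg : Real.pi * (4 - a') / D ≤ 1 := by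
    rw [div_le_iff₀ hD0]
    nlinarith
  have hsh : Real.sinh (Real.pi * (4 - a') / D) ≤ 2 := by
    have h1 : Real.sinh (Real.pi * (4 - a') / D) ≤ Real.sinh 1 := Real.sinh_le_sinh.2 harg
    have h2 : Real.sinh 1 ≤ 2 := by
      rw [Real.sinh_eq]
      have h3 := Real.exp_one_lt_d9
      have h4 := Real.exp_pos (-1)
      linarith
    linarith
  have hch : Real.cosh (Real.pi * (4 - a') / D) ≤ 2 := by
    have h0 : 0 ≤ Real.pi * (4 - a') / D := by
      have : 0 ≤ 4 - a' := by linarith
      positivity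
    have h1 : Real.cosh (Real.pi * (4 - a') / D) ≤ Real.cosh 1 := by
      rw [Real.cosh_le_cosh, abs_of_nonneg h0, abs_of_pos one_pos]
      exact harg
    have h2 : Real.cosh 1 ≤ 2 := by
      rw [Real.cosh_eq]
      have h3 := Real.exp_one_lt_d9
      have h4 : Real.exp (-1) ≤ 1 := Real.exp_le_one_iff.2 (by norm_num)
      linarith
    linarith
  have hsin : ∀ y : ℝ, T ≤ y → y ≤ T₂ → 0 ≤ Real.sin (Real.pi * (y - T) / D) := by
    intro y h3 h4
    apply Real.sin_nonneg_of_nonneg_of_le_pi
    · have : 0 ≤ y - T := by linarith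
      positivity
    · rw [div_le_iff₀ hD0]
      nlinarith
  have hshx : ∀ x : ℝ, a' ≤ x → 0 ≤ Real.sinh (Real.pi * (x - a') / D) := by
    intro x hx
    rw [Real.sinh_nonneg_iff]
    have : 0 ≤ x - a' := by linarith
    positivity
  have hshx2 : ∀ x : ℝ, x ≤ 4 → Real.sinh (Real.pi * (x - a') / D) ≤ 2 := by
    intro x hx
    refine le_trans ?_ hsh
    rw [Real.sinh_le_sinh]
    gcongr
  have hsum : 0 ≤ 2 * Real.pi * ∑ z ∈ Z, (analyticOrderNatAt π.L z : ℝ) *
            (D / Real.pi * Real.sinh (Real.pi * (z.re - a') / D)) *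
            Real.sin (Real.pi * (z.im - T) / D) := by
    have : 0 ≤ ∑ z ∈ Z, (analyticOrderNatAt π.L z : ℝ) *
            (D / Real.pi * Real.sinh (Real.pi * (z.re - a') / D)) *
            Real.sin (Real.pi * (z.im - T) / D) := by
      apply Finset.sum_nonneg
      intro z hz
      obtain ⟨h3, h4, h5, h6, _⟩ := (hZ z).1 hz
      have h8 := hsin z.im h5.le h6.le
      have h9 := hshx z.re h3.le
      positivity
    positivity
  -- continuity
  have hcont : ∀ s : ℂ, T ≤ s.im → ContinuousAt π.L s := fun s hs =>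
    (diffL π (by linarith)).continuousAt
  have cleft : ContinuousOn (fun t : ℝ => π.L (a' + t * I)) (Icc T T₂) := by
    intro t ht
    have h3 : ContinuousAt π.L ((a' : ℂ) + t * I) := hcont _ (by simpa using ht.1)
    exact (h3.comp (f := fun t : ℝ => (a' : ℂ) + t * I) (by fun_prop)).continuousWithinAt
  have chor : ∀ y : ℝ, T ≤ y → Continuous (fun x : ℝ => π.L (x + y * I)) := by
    intro y hy
    rw [continuous_iff_continuousAt]
    intro x
    have h3 : ContinuousAt π.L ((x : ℂ) + y * I) := hcont _ (by simpa using hy)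
    exact h3.comp (f := fun x : ℝ => (x : ℂ) + y * I) (by fun_prop)
  -- the left integral
  have e1 : (∫ t in T..T₂, Real.log ‖π.L (a' + t * I)‖ * Real.sin (Real.pi * (t - T) / D)) ≤
      21 * P := by
    have i1 : IntervalIntegrable (fun t => Real.log ‖π.L (a' + t * I)‖ *
        Real.sin (Real.pi * (t - T) / D)) volume T T₂ := by
      apply ContinuousOn.intervalIntegrable
      rw [uIcc_of_le (by linarith)]
      exact (cleft.norm.log fun t ht => norm_ne_zero_iff.2 (hleft t ht)).mul (by fun_prop)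
    have h1 : (∫ t in T..T₂, Real.log ‖π.L (a' + t * I)‖ * Real.sin (Real.pi * (t - T) / D)) ≤
        ∫ _t in T..T₂, P := by
      apply intervalIntegral.integral_mono_on (by linarith) i1 (by simp)
      intro t ht
      have h3 := hsin t ht.1 ht.2
      have h4 := Real.sin_le_one (Real.pi * (t - T) / D)
      have h5 := hM (a' + t * I) (by simp; linarith) (by simpa using ht.1)
        (by simp; linarith [ht.2]) (hleft t ht)
      calc _ ≤ P * Real.sin (Real.pi * (t - T) / D) := by gcongr
        _ ≤ P * 1 := by gcongr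
        _ = P := mul_one P
    refine h1.trans ?_
    rw [intervalIntegral.integral_const, smul_eq_mul, ← hD]
    gcongr
  -- the horizontal integrals
  set g : ℝ → ℝ := fun x => max 0 (-Real.log ‖π.L (x + T * I)‖) with hg
  have hg0 : ∀ x, 0 ≤ g x := fun x => le_max_left _ _
  have clog1 : ContinuousOn (fun x : ℝ => Real.log ‖π.L (x + T * I)‖) (Icc a' 4) :=
    (chor T le_rfl).continuousOn.norm.log fun x hx => norm_ne_zero_iff.2 (hbot x hx)
  have clog2 : ContinuousOn (fun x : ℝ => Real.log ‖π.L (x + T₂ * I)‖) (Icc a' 4) :=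
    (chor T₂ (by linarith)).continuousOn.norm.log fun x hx => norm_ne_zero_iff.2 (htop x hx)
  have cg : ContinuousOn g (Icc a' 4) := ContinuousOn.sup continuousOn_const clog1.neg
  have csh : Continuous fun x : ℝ => Real.sinh (Real.pi * (x - a') / D) := by fun_prop
  have ha4 : a' ≤ 4 := by linarith
  have i2 : IntervalIntegrable (fun x => Real.sinh (Real.pi * (x - a') / D) * g x) volume a' 4 := by
    apply ContinuousOn.intervalIntegrable
    rw [uIcc_of_le ha4]
    exact csh.continuousOn.mul cg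
  have e2 : (∫ x in a'..4, (Real.log ‖π.L (x + T * I)‖ + Real.log ‖π.L (x + T₂ * I)‖) *
      Real.sinh (Real.pi * (x - a') / D)) ≤
      16 * P - ∫ x in a'..4, Real.sinh (Real.pi * (x - a') / D) * g x := by
    have i1 : IntervalIntegrable (fun x : ℝ => (Real.log ‖π.L (x + T * I)‖ +
        Real.log ‖π.L (x + T₂ * I)‖) * Real.sinh (Real.pi * (x - a') / D)) volume a' 4 := by
      apply ContinuousOn.intervalIntegrable
      rw [uIcc_of_le ha4]
      exact (clog1.add clog2).mul csh.continuousOn
    have h1 : (∫ x in a'..4, (Real.log ‖π.L (x + T * I)‖ + Real.log ‖π.L (x + T₂ * I)‖) *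
        Real.sinh (Real.pi * (x - a') / D)) ≤
        ∫ x in a'..4, (4 * P - Real.sinh (Real.pi * (x - a') / D) * g x) := by
      apply intervalIntegral.integral_mono_on ha4 i1 ((by simp : IntervalIntegrable _ _ _ _).sub i2)
      intro x hx
      have h3 := hshx x hx.1
      have h4 := hshx2 x hx.2
      have h5 := hM (x + T * I) (by simp; linarith [hx.1]) (by simp) (by simp) (hbot x hx)
      have h6 := hM (x + T₂ * I) (by simp; linarith [hx.1]) (by simp; linarith)
        (by simp; linarith) (htop x hx)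
      have h7 : Real.log ‖π.L (x + T * I)‖ ≤ P - g x := by
        simp only [hg]
        rcases le_total 0 (-Real.log ‖π.L (x + T * I)‖) with h | h
        · rw [max_eq_right h]
          linarith
        · rw [max_eq_left h]
          linarith
      calc (Real.log ‖π.L (x + T * I)‖ + Real.log ‖π.L (x + T₂ * I)‖) *
            Real.sinh (Real.pi * (x - a') / D)
          ≤ (P - g x + P) * Real.sinh (Real.pi * (x - a') / D) := by gcongr
        _ = 2 * P * Real.sinh (Real.pi * (x - a') / D) -
            Real.sinh (Real.pi * (x - a') / D) * g x := by ring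
        _ ≤ 2 * P * 2 - Real.sinh (Real.pi * (x - a') / D) * g x := by gcongr
        _ = _ := by ring
    refine h1.trans ?_
    rw [intervalIntegral.integral_sub (by simp) i2, intervalIntegral.integral_const, smul_eq_mul]
    nlinarith
  have h7 := (abs_le.1 hmain).2
  have h8 : (D + 2) * D * Real.cosh (Real.pi * (4 - a') / D) * 1 ≤ 966 := by
    have h1 : 0 < Real.cosh (Real.pi * (4 - a') / D) := Real.cosh_pos _
    have h2 : (D + 2) * D ≤ (21 + 2) * 21 := by gcongr
    calc (D + 2) * D * Real.cosh (Real.pi * (4 - a') / D) * 1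
        ≤ ((21 + 2) * 21) * 2 * 1 := by gcongr
      _ = 966 := by norm_num
  have e3 : (∫ x in a'..4, Real.sinh (Real.pi * (x - a') / D) * g x) ≤ 37 * P + 966 := by
    linarith
  -- comparison
  have e4 : (∫ x in a..4, (x - a) * max 0 (-Real.log ‖π.L (x + T * I)‖)) ≤
      7 * ∫ x in a..4, Real.sinh (Real.pi * (x - a') / D) * g x := by
    rw [← intervalIntegral.integral_const_mul]
    apply intervalIntegral.integral_mono_on (by linarith)
    · apply ContinuousOn.intervalIntegrable
      rw [uIcc_of_le (by linarith)]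
      apply ContinuousOn.mul (by fun_prop)
      exact cg.mono (Icc_subset_Icc ha'2.le le_rfl)
    · apply IntervalIntegrable.const_mul
      apply ContinuousOn.intervalIntegrable
      rw [uIcc_of_le (by linarith)]
      exact csh.continuousOn.mul (cg.mono (Icc_subset_Icc ha'2.le le_rfl))
    · intro x hx
      have h3 : x - a ≤ 7 * Real.sinh (Real.pi * (x - a') / D) := by
        have h4 : Real.pi * (x - a') / D ≤ Real.sinh (Real.pi * (x - a') / D) := by
          rw [Real.self_le_sinh_iff]
          have : 0 ≤ x - a' := by linarith [hx.1]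
          positivity
        have h5 : (x - a) / 7 ≤ Real.pi * (x - a') / D := by
          rw [div_le_div_iff₀ (by norm_num) hD0]
          have h6 : 0 ≤ x - a := by linarith [hx.1]
          have h7 : x - a ≤ x - a' := by linarith
          have h8 : 0 ≤ x - a' := by linarith
          calc (x - a) * D ≤ (x - a') * 21 := by gcongr
            _ ≤ Real.pi * (x - a') * 7 := by nlinarith
        linarith
      have h9 := hg0 x
      calc (x - a) * max 0 (-Real.log ‖π.L (x + T * I)‖)
          ≤ 7 * Real.sinh (Real.pi * (x - a') / D) * g x := by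
            apply mul_le_mul_of_nonneg_right h3 h9
        _ = _ := by ring
  have e5 : (∫ x in a..4, Real.sinh (Real.pi * (x - a') / D) * g x) ≤
      ∫ x in a'..4, Real.sinh (Real.pi * (x - a') / D) * g x := by
    have i3 : IntervalIntegrable (fun x => Real.sinh (Real.pi * (x - a') / D) * g x) volume a' a :=
      i2.mono_set (by
        rw [uIcc_of_le ha'2.le, uIcc_of_le ha4]
        exact Icc_subset_Icc le_rfl (by linarith))
    have i4 : IntervalIntegrable (fun x => Real.sinh (Real.pi * (x - a') / D) * g x) volume a 4 :=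
      i2.mono_set (by
        rw [uIcc_of_le (by linarith), uIcc_of_le ha4]
        exact Icc_subset_Icc ha'2.le le_rfl)
    rw [← intervalIntegral.integral_add_adjacent_intervals i3 i4]
    have : 0 ≤ ∫ x in a'..a, Real.sinh (Real.pi * (x - a') / D) * g x := by
      apply intervalIntegral.integral_nonneg ha'2.le
      intro x hx
      exact mul_nonneg (hshx x hx.1) (hg0 x)
    linarith
  linarith

theorem lh (hCA : T_CA) : T_LH := by
  intro π
  obtain ⟨C, hC, hpoly⟩ := L_poly π
  refine ⟨7 * (37 * (3 * C) + 966), by positivity, fun T a hT ha ha2 hne => ?_⟩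
  have hlog1 : 1 ≤ Real.log T := by
    rw [Real.le_log_iff_exp_le (by linarith)]
    have := Real.exp_one_lt_d9
    linarith
  have hP : ∀ w : ℂ, 0 ≤ w.re → T ≤ w.im → w.im ≤ T + 21 → π.L w ≠ 0 →
      Real.log ‖π.L w‖ ≤ 3 * C * Real.log T := by
    intro w h1 h2 h3 h4
    have h5 := hpoly w h1 (by rw [abs_of_pos (by linarith)]; linarith)
    rw [abs_of_pos (by linarith : 0 < w.im)] at h5
    have h6 : 1 + w.im ≤ T ^ 2 := by nlinarith
    calc Real.log ‖π.L w‖ ≤ Real.log (C * (1 + w.im) ^ C) :=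
          Real.log_le_log (norm_pos_iff.2 h4) h5
      _ = Real.log C + C * Real.log (1 + w.im) := by
          rw [Real.log_mul (by positivity) (by
            have : 0 < 1 + w.im := by linarith
            positivity), Real.log_rpow (by linarith)]
      _ ≤ C * Real.log T + C * (2 * Real.log T) := by
          have h7 : Real.log C ≤ C := (Real.log_le_sub_one_of_pos (by linarith)).trans (by linarith)
          have h8 : Real.log (1 + w.im) ≤ 2 * Real.log T := by
            rw [show 2 * Real.log T = Real.log (T ^ 2) by rw [Real.log_pow]; norm_num]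
            exact Real.log_le_log (by linarith) h6
          have h9 : C ≤ C * Real.log T := le_mul_of_one_le_right (by linarith) hlog1
          gcongr
          linarith
      _ = _ := by ring
  refine (lh_core hCA π hT ha ha2 (by positivity) hne hP).trans ?_
  nlinarith

end Pool.Agent.H18.PZ
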