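import Pool.Agent.H18.PZ.NLc

/-!
Module NL of MP_9f0eeb_nt (positive proportion): lower bound for the number of zeros.
-/

set_option autoImplicit false

open Complex MeasureTheory Set Filter Topology

namespace Pool.Agent.H18.PZ

open Pool.Agent.H28.MZ
open Pool.Agent.H23.GLH (PrimChar)

lemma xa_log {q : ℕ} {A B T t η C : ℝ} (hq : 1 ≤ q) (hT : 1 ≤ T) (hC : 2 * C ≤ T) (ht : T ≤ t)
    (hη : 0 ≤ η) (hη2 : η ≤ 1 / 2) (hA : 0 < A) (hB : 0 < B)
    (h : |A ^ 2 - (q * t / (2 * Real.pi)) ^ (2 * η) * B ^ 2| ≤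
      C / t * ((q * t / (2 * Real.pi)) ^ (2 * η) * B ^ 2)) :
    η * Real.log T - 3 ≤ Real.log A - Real.log B := by
  have hpi := Real.pi_pos
  have hT0 : 0 < T := by linarith
  have ht0 : 0 < t := by linarith
  have hq' : (1 : ℝ) ≤ q := by exact_mod_cast hq
  set Y : ℝ := (q * t / (2 * Real.pi)) ^ (2 * η) with hY
  have hY0 : 0 < Y := Real.rpow_pos_of_pos (by positivity) _
  have h1 := (abs_le.1 h).1
  have h2 : C / t ≤ 1 / 2 := by
    rw [div_le_div_iff₀ ht0 (by norm_num)]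
    linarith
  have h3 : 1 / 2 * (Y * B ^ 2) ≤ A ^ 2 := by
    have h4 : 0 < Y * B ^ 2 := by positivity
    nlinarith
  have h4 := Real.log_le_log (by positivity) h3
  have hlY : Real.log Y = 2 * η * (Real.log q + Real.log t - Real.log (2 * Real.pi)) := by
    rw [hY, Real.log_rpow (by positivity), Real.log_div (by positivity) (by positivity),
      Real.log_mul (by positivity) (by positivity)]
  rw [Real.log_pow, Real.log_mul (by norm_num) (by positivity), Real.log_mul (by positivity)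
    (by positivity), Real.log_pow, hlY, one_div, Real.log_inv] at h4
  have h5 : Real.log 2 ≤ 1 := by
    have := Real.log_two_lt_d9
    linarith
  have h6 : Real.log (2 * Real.pi) ≤ 2 := by
    rw [Real.log_le_iff_le_exp (by positivity)]
    have h7 := Real.exp_one_gt_d9
    have h8 : Real.exp 2 = Real.exp 1 ^ 2 := by
      rw [← Real.exp_nat_mul]
      norm_num
    rw [h8]
    have h9 := Real.pi_lt_d2
    nlinarith
  have h7 : Real.log T ≤ Real.log t := Real.log_le_log hT0 ht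
  have h8 : 0 ≤ Real.log q := Real.log_nonneg hq'
  push_cast at h4
  have h9 : η * Real.log T ≤ η * (Real.log q + Real.log t) := by
    apply mul_le_mul_of_nonneg_left _ hη
    linarith
  have h10 : η * Real.log (2 * Real.pi) ≤ η * 2 := mul_le_mul_of_nonneg_left h6 hη
  linarith

lemma nl_fixed (hCA : T_CA) (hOR : T_OR) (π : PrimChar) {T C₁ C₂ : ℝ} (hT : 20 ≤ T)
    (hC₁ : 0 < C₁)
    (hLH : ∀ T a : ℝ, 10 ≤ T → 1 / 4 ≤ a → a ≤ 1 / 2 →
      (∀ x ∈ Icc a 4, π.L (x + T * I) ≠ 0) →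
      ∫ x in a..4, (x - a) * max 0 (-Real.log ‖π.L (x + T * I)‖) ≤ C₁ * Real.log T)
    (hXA : ∀ t η : ℝ, 1 ≤ t → 0 ≤ η → η ≤ 1 / 2 →
      |‖π.L ((1 / 2 - η : ℝ) + t * I)‖ ^ 2 -
        (π.q * t / (2 * Real.pi)) ^ (2 * η) * ‖π.L ((1 / 2 + η : ℝ) + t * I)‖ ^ 2| ≤
      C₂ / t * ((π.q * t / (2 * Real.pi)) ^ (2 * η) * ‖π.L ((1 / 2 + η : ℝ) + t * I)‖ ^ 2))
    (hTC : 2 * C₂ ≤ T) (hTb : Real.pi * (8 * Real.log T) < T) :
    ∃ Z : Finset ℂ,
      (∀ ρ : ℂ, ρ ∈ Z ↔ 0 < ρ.re ∧ ρ.re < 1 ∧ T < ρ.im ∧ ρ.im < 2 * T ∧ π.L ρ = 0) ∧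
      ∃ η : ℝ, 1 / 8 ≤ η ∧ η ≤ 1 / 4 ∧
        (η * Real.log T - 3) * (2 * T / Real.pi) - 2 * (C₁ * Real.log (2 * T)) -
            3 * (8 * Real.log T) - 1 ≤
          2 * Real.pi * (η * Real.cosh (Real.pi / T) ^ 2 *
            ∑ z ∈ Z, (analyticOrderNatAt π.L z : ℝ) * sn T z.im) := by
  classical
  have hpi := Real.pi_pos
  have hT0 : 0 < T := by linarith
  have hlogT : 1 ≤ Real.log T := by
    rw [Real.le_log_iff_exp_le hT0]
    have := Real.exp_one_lt_d9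
    linarith
  obtain ⟨b, hb⟩ : ∃ b, b = 8 * Real.log T := ⟨_, rfl⟩
  rw [← hb] at hTb ⊢
  have hb4 : 4 ≤ b := by linarith
  have hF := L_zeros_finite π (a := 0) (b := b) (T₁ := T) (T₂ := 2 * T) hT0
  set F : Set ℂ := {z | z ∈ Icc (0 : ℝ) b ×ℂ Icc T (2 * T) ∧ π.L z = 0} with hFdef
  have hFim : (Complex.im '' F).Finite := hF.image _
  have hFre : (Complex.re '' F).Finite := hF.image _
  have memF : ∀ x t : ℝ, 0 ≤ x → x ≤ b → T ≤ t → t ≤ 2 * T → π.L (x + t * I) = 0 →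
      ((x : ℂ) + t * I) ∈ F := by
    intro x t h1 h2 h3 h4 h5
    refine ⟨?_, h5⟩
    rw [Complex.mem_reProdIm]
    simp only [add_re, ofReal_re, mul_re, I_re, mul_zero, ofReal_im, I_im, mul_one,
      sub_self, add_zero, add_im, mul_im, zero_add, mem_Icc]
    exact ⟨⟨h1, h2⟩, h3, h4⟩
  -- the set Z
  set Z : Finset ℂ := hF.toFinset.filter (fun z => 0 < z.re ∧ z.re < 1 ∧ T < z.im ∧ z.im < 2 * T)
    with hZdef
  have hZ : ∀ ρ : ℂ, ρ ∈ Z ↔ 0 < ρ.re ∧ ρ.re < 1 ∧ T < ρ.im ∧ ρ.im < 2 * T ∧ π.L ρ = 0 := by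
    intro ρ
    rw [hZdef, Finset.mem_filter, Set.Finite.mem_toFinset]
    constructor
    · rintro ⟨h1, h2, h3, h4, h5⟩
      exact ⟨h2, h3, h4, h5, h1.2⟩
    · rintro ⟨h1, h2, h3, h4, h5⟩
      refine ⟨⟨?_, h5⟩, h1, h2, h3, h4⟩
      rw [Complex.mem_reProdIm]
      exact ⟨⟨h1.le, by linarith⟩, h3.le, h4.le⟩
  -- the choice of η
  obtain ⟨η, ⟨hη1, hη2⟩, hη3⟩ : ∃ η ∈ Ioo (1 / 8 : ℝ) (1 / 4),
      η ∉ ((fun x : ℝ => 1 / 2 - x) '' (Complex.re '' F)) ∪
        ((fun x : ℝ => x - 1 / 2) '' (Complex.re '' F)) := by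
    have h1 : (Ioo (1 / 8 : ℝ) (1 / 4) \ (((fun x : ℝ => 1 / 2 - x) '' (Complex.re '' F)) ∪
        ((fun x : ℝ => x - 1 / 2) '' (Complex.re '' F)))).Infinite :=
      (Ioo_infinite (by norm_num)).sdiff ((hFre.image _).union (hFre.image _))
    obtain ⟨x, hx⟩ := h1.nonempty
    exact ⟨x, hx.1, hx.2⟩
  have hgenη : ∀ t ∈ Icc T (2 * T), π.L (((1 / 2 - η : ℝ) : ℂ) + t * I) ≠ 0 ∧
      π.L (((1 / 2 + η : ℝ) : ℂ) + t * I) ≠ 0 := by
    intro t ht
    constructor
    · intro h0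
      have h1 := memF (1 / 2 - η) t (by linarith) (by linarith) ht.1 ht.2 h0
      apply hη3
      left
      exact ⟨1 / 2 - η, ⟨_, h1, by simp⟩, by simp⟩
    · intro h0
      have h1 := memF (1 / 2 + η) t (by linarith) (by linarith) ht.1 ht.2 h0
      apply hη3
      right
      exact ⟨1 / 2 + η, ⟨_, h1, by simp⟩, by simp⟩
  refine ⟨Z, hZ, η, hη1.le, hη2.le, ?_⟩
  -- the filter
  set l : Filter (ℝ × ℝ) := 𝓝[>] T ×ˢ 𝓝[<] (2 * T) with hl
  have t1 : Tendsto (fun p : ℝ × ℝ => p.1) l (𝓝 T) := tendsto_fst.mono_right nhdsWithin_le_nhds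
  have t2 : Tendsto (fun p : ℝ × ℝ => p.2) l (𝓝 (2 * T)) :=
    tendsto_snd.mono_right nhdsWithin_le_nhds
  have tD : Tendsto (fun p : ℝ × ℝ => p.2 - p.1) l (𝓝 T) := by
    have := t2.sub t1
    convert! this using 2
    ring
  have ev1 : ∀ᶠ p : ℝ × ℝ in l, T < p.1 ∧ p.1 ∉ Complex.im '' F := by
    have h1 : ∀ᶠ x in 𝓝[>] T, T < x ∧ x ∉ Complex.im '' F := by
      have h3 : ∀ᶠ x in 𝓝[>] T, T < x := self_mem_nhdsWithin
      have h4 : ∀ᶠ x in 𝓝[>] T, x ∉ (Complex.im '' F) \ {T} :=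
        nhdsWithin_le_nhds ((hFim.subset sdiff_subset).isClosed.isOpen_compl.mem_nhds (by simp))
      filter_upwards [h3, h4] with x h3 h4
      exact ⟨h3, fun h => h4 ⟨h, h3.ne'⟩⟩
    exact tendsto_fst.eventually h1
  have ev2 : ∀ᶠ p : ℝ × ℝ in l, p.2 < 2 * T ∧ p.2 ∉ Complex.im '' F := by
    have h1 : ∀ᶠ x in 𝓝[<] (2 * T), x < 2 * T ∧ x ∉ Complex.im '' F := by
      have h3 : ∀ᶠ x in 𝓝[<] (2 * T), x < 2 * T := self_mem_nhdsWithin
      have h4 : ∀ᶠ x in 𝓝[<] (2 * T), x ∉ (Complex.im '' F) \ {2 * T} :=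
        nhdsWithin_le_nhds ((hFim.subset sdiff_subset).isClosed.isOpen_compl.mem_nhds (by simp))
      filter_upwards [h3, h4] with x h3 h4
      exact ⟨h3, fun h => h4 ⟨h, h3.ne⟩⟩
    exact tendsto_snd.eventually h1
  have ev3 : ∀ᶠ p : ℝ × ℝ in l, T / 2 < p.2 - p.1 := tD.eventually (lt_mem_nhds (by linarith))
  have ev4 : ∀ᶠ p : ℝ × ℝ in l, Real.pi * b < p.2 - p.1 := tD.eventually (lt_mem_nhds hTb)
  have ev5 : ∀ᶠ p : ℝ × ℝ in l, ∀ ρ ∈ Z, p.1 < ρ.im ∧ ρ.im < p.2 := by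
    rw [Filter.eventually_all_finset]
    intro ρ hρ
    exact (t1.eventually (gt_mem_nhds ((hZ ρ).1 hρ).2.2.1)).and
      (t2.eventually (lt_mem_nhds ((hZ ρ).1 hρ).2.2.2.1))
  have hineq : ∀ᶠ p : ℝ × ℝ in l,
      (η * Real.log T - 3) * (2 * (p.2 - p.1) / Real.pi) - 2 * (C₁ * Real.log (2 * T)) -
          3 * b - 1 ≤
        2 * Real.pi * (η * Real.cosh (Real.pi / (p.2 - p.1)) ^ 2 *
          ∑ z ∈ Z, (analyticOrderNatAt π.L z : ℝ) *
            Real.sin (Real.pi * (z.im - p.1) / (p.2 - p.1))) := by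
    filter_upwards [ev1, ev2, ev3, ev4, ev5] with p h1 h2 h3 h4 h5
    have hadd : p.1 + (p.2 - p.1) = p.2 := by ring
    have hg2 : ∀ x ∈ Icc (1 / 2 - η) b, π.L (x + p.1 * I) ≠ 0 ∧
        π.L (x + ((p.1 + (p.2 - p.1) : ℝ) : ℂ) * I) ≠ 0 := by
      intro x hx
      rw [hadd]
      constructor
      · intro h0
        exact h1.2 ⟨_, memF x p.1 (by linarith [hx.1]) hx.2 h1.1.le (by linarith [h2.1]) h0,
          by simp⟩
      · intro h0
        exact h2.2 ⟨_, memF x p.2 (by linarith [hx.1]) hx.2 (by linarith [h1.1]) h2.1.le h0,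
          by simp⟩
    have hlog1 : ∀ y : ℝ, T ≤ y → y ≤ 2 * T → C₁ * Real.log y ≤ C₁ * Real.log (2 * T) := by
      intro y hy1 hy2
      apply mul_le_mul_of_nonneg_left _ hC₁.le
      exact Real.log_le_log (by linarith) hy2
    apply nl_core hCA hOR π hT hb hb4 h4.le h1.1.le h3.le (by linarith [h2.1]) hη1.le hη2.le
    · intro t ht
      rw [hadd] at ht
      exact hgenη t ⟨by linarith [ht.1, h1.1], by linarith [ht.2, h2.1]⟩
    · exact hg2
    · intro t ht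
      rw [hadd] at ht
      have ht1 : T ≤ t := by linarith [ht.1, h1.1]
      have hg := hgenη t ⟨ht1, by linarith [ht.2, h2.1]⟩
      apply xa_log (q := π.q) (C := C₂) (t := t) _ (by linarith) hTC ht1 (by linarith)
        (by linarith) (norm_pos_iff.2 hg.1) (norm_pos_iff.2 hg.2)
      · exact hXA t η (by linarith) (by linarith) (by linarith)
      · have := π.q_ne
        exact Nat.one_le_iff_ne_zero.2 (NeZero.ne π.q)
    · refine (hLH p.1 (1 / 2 - η) (by linarith [h1.1]) (by linarith) (by linarith) ?_).trans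
        (hlog1 p.1 h1.1.le (by linarith [h2.1]))
      intro x hx
      exact (hg2 x ⟨hx.1, by linarith [hx.2]⟩).1
    · refine (hLH (p.1 + (p.2 - p.1)) (1 / 2 - η) (by linarith [h1.1]) (by linarith)
        (by linarith) ?_).trans (hlog1 _ (by linarith [h1.1]) (by linarith [h2.1]))
      intro x hx
      exact (hg2 x ⟨hx.1, by linarith [hx.2]⟩).2
    · intro z
      rw [hZ, hadd]
      constructor
      · rintro ⟨g1, g2, g3, g4, g5⟩
        have := h5 z ((hZ z).2 ⟨g1, g2, g3, g4, g5⟩)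
        exact ⟨g1, g2, this.1, this.2, g5⟩
      · rintro ⟨g1, g2, g3, g4, g5⟩
        exact ⟨g1, g2, by linarith [h1.1], by linarith [h2.1], g5⟩
  have : l.NeBot := by
    rw [hl]
    infer_instance
  refine le_of_tendsto_of_tendsto ?_ ?_ hineq
  · apply Tendsto.sub_const
    apply Tendsto.sub_const
    apply Tendsto.sub_const
    apply Tendsto.const_mul
    exact (tD.const_mul 2).div_const _
  · apply Tendsto.const_mul
    apply Tendsto.mul
    · apply Tendsto.const_mul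
      apply Tendsto.pow
      apply (Real.continuous_cosh.tendsto _).comp
      exact tendsto_const_nhds.div tD hT0.ne'
    · apply tendsto_finsetSum
      intro z _
      apply Tendsto.const_mul
      unfold sn
      apply (Real.continuous_sin.tendsto _).comp
      apply Tendsto.div _ tD hT0.ne'
      apply Tendsto.const_mul
      exact tendsto_const_nhds.sub t1

theorem nl (hCA : T_CA) (hLH : T_LH) (hXA : T_XA) (hOR : T_OR) : T_NL := by
  intro π ε hε
  obtain ⟨C₁, hC₁, hLH⟩ := hLH π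
  obtain ⟨C₂, hC₂, hXA⟩ := hXA π
  have hpi := Real.pi_pos
  have v1 : ∀ᶠ T : ℝ in atTop, 20 ≤ T := eventually_ge_atTop 20
  have v2 : ∀ᶠ T : ℝ in atTop, 2 * C₂ ≤ T := eventually_ge_atTop _
  have v3 : ∀ᶠ T : ℝ in atTop, 16 * Real.pi * (4 * C₁ + 25) / ε ≤ T := eventually_ge_atTop _
  have v4 : ∀ᶠ T : ℝ in atTop, 96 / ε ≤ Real.log T :=
    Real.tendsto_log_atTop.eventually_ge_atTop _
  have v5 : ∀ᶠ T : ℝ in atTop, Real.cosh (Real.pi / T) ^ 2 * (1 - ε) ≤ 1 - ε / 2 := by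
    have h1 : Tendsto (fun T : ℝ => Real.pi / T) atTop (𝓝 0) :=
      tendsto_const_nhds.div_atTop tendsto_id
    have h2 : Tendsto (fun T : ℝ => Real.cosh (Real.pi / T) ^ 2 * (1 - ε)) atTop
        (𝓝 (Real.cosh 0 ^ 2 * (1 - ε))) :=
      (((Real.continuous_cosh.tendsto 0).comp h1).pow 2).mul_const _
    rw [Real.cosh_zero, one_pow, one_mul] at h2
    exact h2.eventually (ge_mem_nhds (by linarith))
  have v6 : ∀ᶠ T : ℝ in atTop, Real.pi * (8 * Real.log T) < T := by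
    have h1 : Tendsto (fun T : ℝ => Real.log T / T) atTop (𝓝 0) := by
      have := Real.isLittleO_log_id_atTop.tendsto_div_nhds_zero
      exact this
    have h2 : ∀ᶠ T : ℝ in atTop, Real.log T / T < 1 / (8 * Real.pi) :=
      h1.eventually (gt_mem_nhds (by positivity))
    filter_upwards [h2, v1] with T h3 h4
    rw [div_lt_div_iff₀ (by linarith) (by positivity)] at h3
    linarith
  obtain ⟨T₀, hT₀⟩ := eventually_atTop.1 (v1.and (v2.and (v3.and (v4.and (v5.and v6)))))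
  refine ⟨T₀, fun T hT => ?_⟩
  obtain ⟨w1, w2, w3, w4, w5, w6⟩ := hT₀ T hT
  have hT0 : 0 < T := by linarith
  obtain ⟨Z, hZ, η, hη1, hη2, hmain⟩ := nl_fixed hCA hOR π w1 hC₁ hLH hXA w2 w6
  refine ⟨Z, hZ, ?_⟩
  set X : ℝ := ∑ ρ ∈ Z, (analyticOrderNatAt π.L ρ : ℝ) * sn T ρ.im with hX
  by_contra hcon
  push Not at hcon
  have hlogT : 1 < Real.log T := by
    rw [Real.lt_log_iff_exp_lt hT0]
    have := Real.exp_one_lt_d9
    linarith
  have hc0 : 0 < Real.cosh (Real.pi / T) ^ 2 := by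
    have := Real.cosh_pos (Real.pi / T)
    positivity
  have h1 : 2 * Real.pi * (η * Real.cosh (Real.pi / T) ^ 2 * X) ≤
      2 * η * (1 - ε / 2) * (T * Real.log T) / Real.pi := by
    calc 2 * Real.pi * (η * Real.cosh (Real.pi / T) ^ 2 * X)
        ≤ 2 * Real.pi * (η * Real.cosh (Real.pi / T) ^ 2 *
          ((1 - ε) * (T * Real.log T / Real.pi ^ 2))) := by gcongr
      _ = 2 * η * (Real.cosh (Real.pi / T) ^ 2 * (1 - ε)) * (T * Real.log T) / Real.pi := by
          field_simp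
      _ ≤ 2 * η * (1 - ε / 2) * (T * Real.log T) / Real.pi := by gcongr
  have h2 : Real.log (2 * T) ≤ 2 * Real.log T := by
    rw [show 2 * Real.log T = Real.log (T ^ 2) by rw [Real.log_pow]; norm_num]
    exact Real.log_le_log (by linarith) (by nlinarith)
  have h3 : C₁ * Real.log (2 * T) ≤ C₁ * (2 * Real.log T) := by gcongr
  have h4 : 6 * T / Real.pi ≤ ε / 16 * (T * Real.log T) / Real.pi := by
    have h5 : 6 ≤ ε / 16 * Real.log T := by
      have := (div_le_iff₀ hε).1 w4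
      linarith
    calc 6 * T / Real.pi ≤ (ε / 16 * Real.log T) * T / Real.pi := by gcongr
      _ = _ := by ring
  have h5 : (4 * C₁ + 25) * Real.log T ≤ ε / 16 * (T * Real.log T) / Real.pi := by
    have h6 : 4 * C₁ + 25 ≤ ε / 16 * T / Real.pi := by
      rw [le_div_iff₀ hpi]
      have := (div_le_iff₀ hε).1 w3
      linarith
    calc (4 * C₁ + 25) * Real.log T ≤ (ε / 16 * T / Real.pi) * Real.log T := by gcongr
      _ = _ := by ring
  have h6 : (η * Real.log T - 3) * (2 * T / Real.pi) =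
      2 * η * (T * Real.log T) / Real.pi - 6 * T / Real.pi := by ring
  have h7 : 2 * η * (1 - ε / 2) * (T * Real.log T) / Real.pi =
      2 * η * (T * Real.log T) / Real.pi - η * ε * (T * Real.log T) / Real.pi := by ring
  have h8 : 1 / 8 * ε * (T * Real.log T) / Real.pi ≤ η * ε * (T * Real.log T) / Real.pi := by
    gcongr
  rw [h6] at hmain
  rw [h7] at h1
  have h9 : 6 * T / Real.pi + (4 * C₁ + 25) * Real.log T ≤
      1 / 8 * ε * (T * Real.log T) / Real.pi := by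
    have : 1 / 8 * ε * (T * Real.log T) / Real.pi = ε / 16 * (T * Real.log T) / Real.pi +
      ε / 16 * (T * Real.log T) / Real.pi := by ring
    linarith
  linarith

end Pool.Agent.H18.PZ
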