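import Pool.Agent.H28.MZ.Targets
import Pool.Agent.H33.LI.PB
import Pool.Agent.H15.LI.LF
import Pool.Agent.H18.PZ.Fac

/-!
Common facts about `π.L` for the modules LH and NL.
-/

set_option autoImplicit false

open Complex MeasureTheory Set Filter Topology

namespace Pool.Agent.H18.PZ

open Pool.Agent.H28.MZ
open Pool.Agent.H23.GLH (PrimChar)

lemma diffL (π : PrimChar) {s : ℂ} (hs : 0 < s.im) : DifferentiableAt ℂ π.L s := by
  have h1 : s ≠ 1 := by
    rintro rfl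
    simp at hs
  have := π.q_ne
  exact DirichletCharacter.differentiableAt_LFunction π.χ s (Or.inl h1)

lemma term_le' {q : ℕ} (χ : DirichletCharacter ℂ q) {s : ℂ} {σ : ℝ} (hσ : 2 ≤ σ)
    (hs : σ ≤ s.re) (n : ℕ) :
    ‖LSeries.term (fun n => χ (n : ZMod q)) s (n + 1 + 1)‖ ≤
      (1 / 2) ^ (σ - 2) * (1 / ((n + 2 : ℕ) : ℝ) ^ 2) := by
  rw [LSeries.term_of_ne_zero (by omega), norm_div,
    Complex.norm_natCast_cpow_of_pos (by omega)]
  have hn : (2 : ℝ) ≤ ((n + 2 : ℕ) : ℝ) := by push_cast; linarith [Nat.cast_nonneg (α := ℝ) n]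
  have hn0 : (0 : ℝ) < ((n + 2 : ℕ) : ℝ) := by linarith
  have h2 : ‖χ ((n + 1 + 1 : ℕ) : ZMod q)‖ ≤ 1 := DirichletCharacter.norm_le_one χ _
  have h3 : (2 : ℝ) ^ (σ - 2) * ((n + 2 : ℕ) : ℝ) ^ (2 : ℕ) ≤ ((n + 1 + 1 : ℕ) : ℝ) ^ s.re := by
    have e1 : ((n + 1 + 1 : ℕ) : ℝ) ^ s.re ≥ ((n + 2 : ℕ) : ℝ) ^ σ :=
      Real.rpow_le_rpow_of_exponent_le (by linarith) hs
    have e2 : ((n + 2 : ℕ) : ℝ) ^ σ = ((n + 2 : ℕ) : ℝ) ^ (σ - 2) * ((n + 2 : ℕ) : ℝ) ^ (2 : ℕ) := by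
      rw [← Real.rpow_natCast, ← Real.rpow_add hn0]
      congr 1
      push_cast
      ring
    have e3 : (2 : ℝ) ^ (σ - 2) ≤ ((n + 2 : ℕ) : ℝ) ^ (σ - 2) :=
      Real.rpow_le_rpow (by norm_num) hn (by linarith)
    calc (2 : ℝ) ^ (σ - 2) * ((n + 2 : ℕ) : ℝ) ^ (2 : ℕ)
        ≤ ((n + 2 : ℕ) : ℝ) ^ (σ - 2) * ((n + 2 : ℕ) : ℝ) ^ (2 : ℕ) := by gcongr
      _ ≤ _ := by rw [← e2]; exact e1
  have h4 : (0 : ℝ) < (2 : ℝ) ^ (σ - 2) := Real.rpow_pos_of_pos (by norm_num) _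
  have h5 : ((1 : ℝ) / 2) ^ (σ - 2) = 1 / (2 : ℝ) ^ (σ - 2) := by
    rw [Real.div_rpow (by norm_num) (by norm_num), Real.one_rpow]
  rw [h5]
  calc ‖χ ((n + 1 + 1 : ℕ) : ZMod q)‖ / ((n + 1 + 1 : ℕ) : ℝ) ^ s.re
      ≤ 1 / ((2 : ℝ) ^ (σ - 2) * ((n + 2 : ℕ) : ℝ) ^ (2 : ℕ)) := by gcongr
    _ = _ := by field_simp

lemma L_near (π : PrimChar) {s : ℂ} {σ : ℝ} (hσ : 2 ≤ σ) (hs : σ ≤ s.re) :
    ‖π.L s - 1‖ ≤ (1 / 2) ^ (σ - 2) * (Real.pi ^ 2 / 6 - 1) := by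
  have := π.q_ne
  have h1 : (1:ℝ) < s.re := by linarith
  show ‖DirichletCharacter.LFunction π.χ s - 1‖ ≤ _
  rw [DirichletCharacter.LFunction_eq_LSeries π.χ h1, LSeries]
  have hsum : Summable (LSeries.term (fun n => π.χ (n : ZMod π.q)) s) :=
    DirichletCharacter.LSeriesSummable_of_one_lt_re π.χ h1
  have h2 := hsum.tsum_eq_zero_add
  have h3 := ((summable_nat_add_iff 1).mpr hsum).tsum_eq_zero_add
  have e0 : LSeries.term (fun n => π.χ (n : ZMod π.q)) s 0 = 0 := by simp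
  have e1 : LSeries.term (fun n => π.χ (n : ZMod π.q)) s (0 + 1) = 1 := by
    rw [LSeries.term_of_ne_zero (by norm_num)]
    simp
  rw [e0, zero_add] at h2
  rw [e1] at h3
  rw [h2, h3, add_sub_cancel_left]
  have hz1 : HasSum (fun n : ℕ => 1 / ((n + 2 : ℕ) : ℝ) ^ 2) (Real.pi ^ 2 / 6 - 1) := by
    have h4 := (hasSum_nat_add_iff' (f := fun n : ℕ => 1 / (n : ℝ) ^ 2) 2).mpr hasSum_zeta_two
    have : (∑ i ∈ Finset.range 2, (fun n : ℕ => 1 / (n : ℝ) ^ 2) i) = 1 := by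
      simp [Finset.sum_range_succ]
    rw [this] at h4
    exact h4
  exact tsum_of_norm_bounded (hz1.mul_left _) (fun n => term_le' π.χ hσ hs n)

/-- a clean form: for `Re s ≥ σ ≥ 2` we have `|L - 1| ≤ 3 · 2^{-σ}` -/
lemma L_near3 (π : PrimChar) {s : ℂ} {σ : ℝ} (hσ : 2 ≤ σ) (hs : σ ≤ s.re) :
    ‖π.L s - 1‖ ≤ 3 * (2 : ℝ) ^ (-σ) := by
  refine (L_near π hσ hs).trans ?_
  have h1 : ((1 : ℝ) / 2) ^ (σ - 2) = 4 * (2 : ℝ) ^ (-σ) := by
    rw [one_div, Real.inv_rpow (by norm_num), ← Real.rpow_neg (by norm_num),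
      show -(σ - 2) = -σ + 2 by ring, Real.rpow_add (by norm_num)]
    norm_num
    ring
  rw [h1]
  have h2 : Real.pi ^ 2 / 6 - 1 ≤ 3 / 4 := by
    have := Real.pi_lt_d2
    have := Real.pi_pos
    nlinarith
  have h3 : 0 < (2 : ℝ) ^ (-σ) := Real.rpow_pos_of_pos (by norm_num) _
  nlinarith

/-- polynomial bound -/
lemma L_poly (π : PrimChar) : ∃ C : ℝ, 1 ≤ C ∧ ∀ w : ℂ, 0 ≤ w.re → 1 ≤ |w.im| →
    ‖π.L w‖ ≤ C * (1 + |w.im|) ^ C := by
  obtain ⟨C, hC, h⟩ := Pool.Agent.H33.LI.pb Pool.Agent.H15.LI.lf π 0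
  refine ⟨max C 1, le_max_right _ _, fun w hw hi => ?_⟩
  refine (h w (by linarith) hi).trans ?_
  have h1 : (1 + |w.im|) ^ C ≤ (1 + |w.im|) ^ (max C 1) :=
    Real.rpow_le_rpow_of_exponent_le (by linarith) (le_max_left _ _)
  have h2 : 0 ≤ (1 + |w.im|) ^ (max C 1) := by positivity
  calc C * (1 + |w.im|) ^ C ≤ C * (1 + |w.im|) ^ (max C 1) := by gcongr
    _ ≤ _ := mul_le_mul_of_nonneg_right (le_max_left _ _) h2

/-- the right edge -/
lemma L_right (π : PrimChar) {b t : ℝ} (hb : 4 ≤ b) (ht : 2 ≤ t) :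
    π.L (b + t * I) ≠ 0 ∧ |Real.log ‖π.L (b + t * I)‖| ≤ 12 * (2 : ℝ) ^ (-b) ∧
      ‖deriv π.L (b + t * I)‖ ≤ 12 * (2 : ℝ) ^ (-b) * ‖π.L (b + t * I)‖ := by
  set ε : ℝ := (2 : ℝ) ^ (-b) with hε
  have hε0 : 0 < ε := Real.rpow_pos_of_pos (by norm_num) _
  have hε1 : ε ≤ 1 / 16 := by
    calc ε ≤ (2 : ℝ) ^ (-4 : ℝ) := Real.rpow_le_rpow_of_exponent_le (by norm_num) (by linarith)
      _ = 1 / 16 := by
        rw [show (-4 : ℝ) = ((-4 : ℤ) : ℝ) by norm_num, Real.rpow_intCast]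
        norm_num
  have h1 : ‖π.L (b + t * I) - 1‖ ≤ 3 * ε := L_near3 π (by linarith) (by simp)
  have hlow : 1 - 3 * ε ≤ ‖π.L (b + t * I)‖ := by
    have h3 := norm_sub_norm_le (1 : ℂ) (π.L (b + t * I))
    rw [norm_sub_rev, norm_one] at h3
    linarith
  have hup : ‖π.L (b + t * I)‖ ≤ 1 + 3 * ε := by
    have h3 := norm_sub_norm_le (π.L (b + t * I)) (1 : ℂ)
    rw [norm_one] at h3
    linarith
  have hpos : 0 < ‖π.L (b + t * I)‖ := by linarith
  refine ⟨norm_pos_iff.1 hpos, ?_, ?_⟩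
  · rw [abs_le]
    constructor
    · have h3 := Real.one_sub_inv_le_log_of_pos hpos
      have h4 : (‖π.L (b + t * I)‖)⁻¹ ≤ 1 + 12 * ε := by
        rw [inv_le_comm₀ hpos (by linarith)]
        refine le_trans ?_ hlow
        rw [inv_le_iff_one_le_mul₀ (by linarith)]
        nlinarith
      linarith
    · have h3 := Real.log_le_sub_one_of_pos hpos
      linarith
  · have h3 : ‖deriv π.L (b + t * I)‖ ≤ (6 * ε) / 1 := by
      have h4 : deriv π.L (b + t * I) = deriv (fun s => π.L s - 1) (b + t * I) := by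
        rw [deriv_sub_const]
      rw [h4]
      have hin : ∀ z : ℂ, dist z (b + t * I) ≤ 1 → b - 1 ≤ z.re ∧ 0 < z.im := by
        intro z hz
        rw [dist_eq_norm] at hz
        have h5 := (Complex.abs_re_le_norm (z - (b + t * I))).trans hz
        have h6 := (Complex.abs_im_le_norm (z - (b + t * I))).trans hz
        simp only [sub_re, add_re, ofReal_re, mul_re, I_re, mul_zero, ofReal_im, I_im, mul_one,
          sub_self, add_zero, sub_im, add_im, mul_im, zero_add] at h5 h6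
        rw [abs_le] at h5 h6
        exact ⟨by linarith, by linarith⟩
      apply Complex.norm_deriv_le_of_forall_mem_sphere_norm_le (by norm_num)
      · have h7 : DifferentiableOn ℂ (fun s => π.L s - 1) (Metric.closedBall (b + t * I) 1) := by
          intro z hz
          have h8 := hin z (Metric.mem_closedBall.1 hz)
          exact ((diffL π h8.2).sub_const 1).differentiableWithinAt
        exact h7.diffContOnCl_ball (le_refl _)
      · intro z hz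
        have h8 := hin z (le_of_eq (Metric.mem_sphere.1 hz))
        refine (L_near3 π (σ := b - 1) (by linarith) h8.1).trans ?_
        rw [show -(b - 1) = -b + 1 by ring, Real.rpow_add (by norm_num), Real.rpow_one]
        linarith
    rw [div_one] at h3
    refine h3.trans ?_
    nlinarith

lemma preconn : IsPreconnected {s : ℂ | 0 < s.im} :=
  (convex_halfSpace_im_gt 0).isPreconnected

lemma anaL (π : PrimChar) : AnalyticOnNhd ℂ π.L {s : ℂ | 0 < s.im} := by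
  apply DifferentiableOn.analyticOnNhd _ (isOpen_lt continuous_const Complex.continuous_im)
  intro s hs
  exact (diffL π hs).differentiableWithinAt

/-- finitely many zeros in a compact rectangle -/
lemma L_zeros_finite (π : PrimChar) {a b T₁ T₂ : ℝ} (hT : 0 < T₁) :
    {z | z ∈ Icc a b ×ℂ Icc T₁ T₂ ∧ π.L z = 0}.Finite := by
  apply zeros_finite preconn (anaL π) (s0 := (4 : ℝ) + (2 : ℝ) * I) (by simp)
    (L_right π le_rfl le_rfl).1 (isCompact_Icc.reProdIm isCompact_Icc)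
  intro z hz
  have := (Complex.mem_reProdIm.1 hz).2.1
  exact lt_of_lt_of_le hT this

end Pool.Agent.H18.PZ
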