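import Pool.Agent.H18.PZ.LB

/-!
Module NL of MP_9f0eeb_nt (positive proportion): lower bound for the number of zeros, the core
inequality on a generic rectangle.
-/

set_option autoImplicit false

open Complex MeasureTheory Set Filter Topology

namespace Pool.Agent.H18.PZ

open Pool.Agent.H28.MZ
open Pool.Agent.H23.GLH (PrimChar)

lemma sinh_le_mul_cosh {y : ℝ} (hy : 0 ≤ y) : Real.sinh y ≤ y * Real.cosh y := by
  have h1 : MonotoneOn (fun y => y * Real.cosh y - Real.sinh y) (Ici 0) := by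
    apply monotoneOn_of_deriv_nonneg (convex_Ici 0)
    · fun_prop
    · fun_prop
    · intro x hx
      rw [interior_Ici] at hx
      have h2 : HasDerivAt (fun y => y * Real.cosh y - Real.sinh y)
          (1 * Real.cosh x + x * Real.sinh x - Real.cosh x) x :=
        ((hasDerivAt_id x).mul (Real.hasDerivAt_cosh x)).sub (Real.hasDerivAt_sinh x)
      rw [h2.deriv]
      have h3 : 0 ≤ Real.sinh x := Real.sinh_nonneg_iff.2 (le_of_lt hx)
      have h4 : 0 ≤ x * Real.sinh x := mul_nonneg (le_of_lt hx) h3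
      linarith
  have h2 := h1 (Set.mem_Ici.2 (le_refl (0 : ℝ))) (Set.mem_Ici.2 hy) hy
  simp only [zero_mul, Real.sinh_zero, sub_zero] at h2
  linarith

/-- the symmetrised kernel -/
lemma phi_bound {D η x : ℝ} (hD : 0 < D) (hη : 0 ≤ η) (hη1 : η ≤ 1) (hx : 0 ≤ x) (hx1 : x ≤ 1) :
    D / Real.pi * Real.sinh (Real.pi * (x - (1 / 2 - η)) / D) +
      D / Real.pi * Real.sinh (Real.pi * ((1 / 2 + η) - x) / D) ≤
      2 * η * Real.cosh (Real.pi / D) ^ 2 := by
  have hpi := Real.pi_pos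
  have e1 : Real.sinh (Real.pi * (x - (1 / 2 - η)) / D) +
      Real.sinh (Real.pi * ((1 / 2 + η) - x) / D) =
      2 * (Real.sinh (Real.pi * η / D) * Real.cosh (Real.pi * (x - 1 / 2) / D)) := by
    have h1 : Real.pi * (x - (1 / 2 - η)) / D = Real.pi * η / D + Real.pi * (x - 1 / 2) / D := by
      ring
    have h2 : Real.pi * ((1 / 2 + η) - x) / D = Real.pi * η / D - Real.pi * (x - 1 / 2) / D := by
      ring
    rw [h1, h2, Real.sinh_add, Real.sinh_sub]
    ring
  have h3 : Real.sinh (Real.pi * η / D) ≤ Real.pi * η / D * Real.cosh (Real.pi / D) := by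
    have h4 : 0 ≤ Real.pi * η / D := by positivity
    refine (sinh_le_mul_cosh h4).trans ?_
    apply mul_le_mul_of_nonneg_left _ h4
    rw [Real.cosh_le_cosh, abs_of_nonneg h4, abs_of_nonneg (by positivity)]
    gcongr
    nlinarith
  have h5 : Real.cosh (Real.pi * (x - 1 / 2) / D) ≤ Real.cosh (Real.pi / D) := by
    rw [Real.cosh_le_cosh, abs_div, abs_mul, abs_of_pos hpi, abs_of_pos hD,
      abs_of_nonneg (show 0 ≤ Real.pi / D by positivity)]
    gcongr
    have : |x - 1 / 2| ≤ 1 := by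
      rw [abs_le]
      constructor <;> linarith
    nlinarith
  have h6 : 0 < Real.cosh (Real.pi / D) := Real.cosh_pos _
  have h7 : 0 < Real.cosh (Real.pi * (x - 1 / 2) / D) := Real.cosh_pos _
  have h8 : 0 ≤ Real.sinh (Real.pi * η / D) := Real.sinh_nonneg_iff.2 (by positivity)
  calc D / Real.pi * Real.sinh (Real.pi * (x - (1 / 2 - η)) / D) +
      D / Real.pi * Real.sinh (Real.pi * ((1 / 2 + η) - x) / D)
      = D / Real.pi * (Real.sinh (Real.pi * (x - (1 / 2 - η)) / D) +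
        Real.sinh (Real.pi * ((1 / 2 + η) - x) / D)) := by ring
    _ = D / Real.pi * (2 * (Real.sinh (Real.pi * η / D) *
        Real.cosh (Real.pi * (x - 1 / 2) / D))) := by rw [e1]
    _ ≤ D / Real.pi * (2 * (Real.pi * η / D * Real.cosh (Real.pi / D) *
        Real.cosh (Real.pi / D))) := by gcongr
    _ = 2 * η * Real.cosh (Real.pi / D) ^ 2 := by field_simp

/-- odd functions: `φ(y⁺) - φ((-y)⁺) = φ(y)` -/
lemma phi_odd (D y : ℝ) : Real.sinh (Real.pi * max 0 y / D) - Real.sinh (Real.pi * max 0 (-y) / D) =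
    Real.sinh (Real.pi * y / D) := by
  rcases le_total 0 y with h | h
  · rw [max_eq_right h, max_eq_left (by linarith)]
    simp
  · rw [max_eq_left h, max_eq_right (by linarith)]
    rw [show Real.pi * -y / D = -(Real.pi * y / D) by ring, Real.sinh_neg]
    simp

/-- the sum over zeros to the right of `c`, as a sum over all zeros -/
lemma sum_right {f : ℂ → ℂ} {c b T₁ D : ℝ} (hb : 1 ≤ b) (Z Zc : Finset ℂ) (o : ℂ → ℝ)
    (hZ : ∀ z : ℂ, z ∈ Z ↔ 0 < z.re ∧ z.re < 1 ∧ T₁ < z.im ∧ z.im < T₁ + D ∧ f z = 0)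
    (hZc : ∀ z : ℂ, z ∈ Zc ↔ c < z.re ∧ z.re < b ∧ T₁ < z.im ∧ z.im < T₁ + D ∧ f z = 0)
    (hst : ∀ z : ℂ, T₁ < z.im → f z = 0 → 0 < z.re ∧ z.re < 1) :
    ∑ z ∈ Zc, o z * (D / Real.pi * Real.sinh (Real.pi * (z.re - c) / D)) *
        Real.sin (Real.pi * (z.im - T₁) / D) =
      ∑ z ∈ Z, o z * (D / Real.pi * Real.sinh (Real.pi * max 0 (z.re - c) / D)) *
        Real.sin (Real.pi * (z.im - T₁) / D) := by
  have hsub : Zc ⊆ Z := by
    intro z hz
    obtain ⟨h1, h2, h3, h4, h5⟩ := (hZc z).1 hz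
    obtain ⟨h6, h7⟩ := hst z h3 h5
    exact (hZ z).2 ⟨h6, h7, h3, h4, h5⟩
  rw [← Finset.sum_subset hsub]
  · apply Finset.sum_congr rfl
    intro z hz
    rw [max_eq_right (by linarith [((hZc z).1 hz).1])]
  · intro z hz hz2
    obtain ⟨h1, h2, h3, h4, h5⟩ := (hZ z).1 hz
    have h6 : z.re ≤ c := by
      by_contra h
      push Not at h
      exact hz2 ((hZc z).2 ⟨h, by linarith, h3, h4, h5⟩)
    rw [max_eq_left (by linarith)]
    simp

/-- symmetrisation -/
lemma sum_symm {T₁ D η : ℝ} (hD : 0 < D) (hη : 0 ≤ η) (hη1 : η ≤ 1) (Z : Finset ℂ) (o : ℂ → ℝ)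
    (ho : ∀ z ∈ Z, 0 ≤ o z) (hre : ∀ z ∈ Z, 0 ≤ z.re ∧ z.re ≤ 1)
    (hsin : ∀ z ∈ Z, 0 ≤ Real.sin (Real.pi * (z.im - T₁) / D))
    (hinv : ∀ z ∈ Z, 1 - (starRingEnd ℂ) z ∈ Z)
    (hord : ∀ z ∈ Z, o (1 - (starRingEnd ℂ) z) = o z) :
    (∑ z ∈ Z, o z * (D / Real.pi * Real.sinh (Real.pi * max 0 (z.re - (1 / 2 - η)) / D)) *
        Real.sin (Real.pi * (z.im - T₁) / D)) -
      ∑ z ∈ Z, o z * (D / Real.pi * Real.sinh (Real.pi * max 0 (z.re - (1 / 2 + η)) / D)) *
        Real.sin (Real.pi * (z.im - T₁) / D) ≤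
      η * Real.cosh (Real.pi / D) ^ 2 * ∑ z ∈ Z, o z * Real.sin (Real.pi * (z.im - T₁) / D) := by
  have hinvol : ∀ z : ℂ, 1 - (starRingEnd ℂ) (1 - (starRingEnd ℂ) z) = z := by
    intro z
    simp
  have hsym : ∀ g : ℂ → ℝ, ∑ z ∈ Z, g (1 - (starRingEnd ℂ) z) = ∑ z ∈ Z, g z := by
    intro g
    apply Finset.sum_nbij' (fun z => 1 - (starRingEnd ℂ) z) (fun z => 1 - (starRingEnd ℂ) z)
    · exact hinv
    · exact hinv
    · intro z _
      exact hinvol z
    · intro z _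
      exact hinvol z
    · intro z _
      rfl
  set G : ℝ → ℂ → ℝ := fun c z => o z * (D / Real.pi *
    Real.sinh (Real.pi * max 0 (z.re - c) / D)) * Real.sin (Real.pi * (z.im - T₁) / D) with hG
  have key : 2 * ((∑ z ∈ Z, G (1 / 2 - η) z) - ∑ z ∈ Z, G (1 / 2 + η) z) ≤
      2 * (η * Real.cosh (Real.pi / D) ^ 2 *
        ∑ z ∈ Z, o z * Real.sin (Real.pi * (z.im - T₁) / D)) := by
    have e1 : 2 * ((∑ z ∈ Z, G (1 / 2 - η) z) - ∑ z ∈ Z, G (1 / 2 + η) z) =
        ∑ z ∈ Z, (G (1 / 2 - η) z - G (1 / 2 + η) z + (G (1 / 2 - η) (1 - (starRingEnd ℂ) z) -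
          G (1 / 2 + η) (1 - (starRingEnd ℂ) z))) := by
      rw [Finset.sum_add_distrib, Finset.sum_sub_distrib, Finset.sum_sub_distrib,
        hsym (G (1 / 2 - η)), hsym (G (1 / 2 + η))]
      ring
    rw [e1, Finset.mul_sum, Finset.mul_sum]
    apply Finset.sum_le_sum
    intro z hz
    have h1 := phi_bound hD hη hη1 (hre z hz).1 (hre z hz).2
    have h2 := ho z hz
    have h3 := hsin z hz
    have h4 := hord z hz
    simp only [hG, h4]
    have h5 : (1 - (starRingEnd ℂ) z).re = 1 - z.re := by simp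
    have h6 : (1 - (starRingEnd ℂ) z).im = z.im := by simp
    rw [h5, h6]
    have e2 := phi_odd D (z.re - (1 / 2 - η))
    have e3 := phi_odd D ((1 / 2 + η) - z.re)
    rw [show -(z.re - (1 / 2 - η)) = 1 - z.re - (1 / 2 + η) by ring] at e2
    rw [show -((1 / 2 + η) - z.re) = z.re - (1 / 2 + η) by ring,
      show (1 / 2 + η) - z.re = 1 - z.re - (1 / 2 - η) by ring] at e3
    rw [show (1 / 2 + η) - z.re = 1 - z.re - (1 / 2 - η) by ring] at h1
    rw [← e2, ← e3] at h1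
    calc _ = o z * Real.sin (Real.pi * (z.im - T₁) / D) *
          (D / Real.pi * (Real.sinh (Real.pi * max 0 (z.re - (1 / 2 - η)) / D) -
            Real.sinh (Real.pi * max 0 (1 - z.re - (1 / 2 + η)) / D)) +
          D / Real.pi * (Real.sinh (Real.pi * max 0 (1 - z.re - (1 / 2 - η)) / D) -
            Real.sinh (Real.pi * max 0 (z.re - (1 / 2 + η)) / D))) := by ring
      _ ≤ o z * Real.sin (Real.pi * (z.im - T₁) / D) * (2 * η * Real.cosh (Real.pi / D) ^ 2) := by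
          gcongr
      _ = _ := by ring
  linarith

end Pool.Agent.H18.PZ
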