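import Pool.Agent.H18.PZ.NLa

/-!
Module NL of MP_9f0eeb_nt (positive proportion): the core inequality on a generic rectangle.
-/

set_option autoImplicit false

open Complex MeasureTheory Set Filter Topology

namespace Pool.Agent.H18.PZ

open Pool.Agent.H28.MZ
open Pool.Agent.H23.GLH (PrimChar)

/-- the horizontal sides -/
lemma horiz {l : ℝ → ℝ} {a s₁ b D P : ℝ} (hD : 10 ≤ D) (ha : 0 ≤ a) (has : a < s₁) (hs4 : s₁ ≤ 1)
    (hb : 4 ≤ b) (hbD : Real.pi * b ≤ D) (hl : ContinuousOn l (Icc a b))
    (hP : ∫ x in a..4, (x - a) * max 0 (-l x) ≤ P) (hl2 : ∀ x ∈ Icc 4 b, |l x| ≤ 3 / 4) :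
    -P - 3 / 2 * b ≤ (∫ x in a..b, l x * Real.sinh (Real.pi * (x - a) / D)) -
      ∫ x in s₁..b, l x * Real.sinh (Real.pi * (x - s₁) / D) := by
  have hpi := Real.pi_pos
  have hpi3 := Real.pi_lt_d2
  have hD0 : 0 < D := by linarith
  have hab : a ≤ b := by linarith
  have csa : Continuous fun x : ℝ => Real.sinh (Real.pi * (x - a) / D) := by fun_prop
  have csm : Continuous fun x : ℝ => Real.sinh (Real.pi * max 0 (x - s₁) / D) := by fun_prop
  have csb : Continuous fun x : ℝ => Real.sinh (Real.pi * (x - s₁) / D) := by fun_prop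
  have e1 : (∫ x in s₁..b, l x * Real.sinh (Real.pi * (x - s₁) / D)) =
      ∫ x in a..b, l x * Real.sinh (Real.pi * max 0 (x - s₁) / D) := by
    have i1 : IntervalIntegrable (fun x => l x * Real.sinh (Real.pi * max 0 (x - s₁) / D)) volume
        a s₁ := by
      apply ContinuousOn.intervalIntegrable
      rw [uIcc_of_le has.le]
      exact (hl.mono (Icc_subset_Icc le_rfl (by linarith))).mul csm.continuousOn
    have i2 : IntervalIntegrable (fun x => l x * Real.sinh (Real.pi * max 0 (x - s₁) / D)) volume
        s₁ b := by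
      apply ContinuousOn.intervalIntegrable
      rw [uIcc_of_le (by linarith)]
      exact (hl.mono (Icc_subset_Icc has.le le_rfl)).mul csm.continuousOn
    rw [← intervalIntegral.integral_add_adjacent_intervals i1 i2]
    have h1 : (∫ x in a..s₁, l x * Real.sinh (Real.pi * max 0 (x - s₁) / D)) = 0 := by
      rw [intervalIntegral.integral_congr (g := fun _ => (0 : ℝ))]
      · simp
      · intro x hx
        rw [uIcc_of_le has.le] at hx
        simp only
        rw [max_eq_left (by linarith [hx.2])]
        simp
    rw [h1, zero_add]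
    apply intervalIntegral.integral_congr
    intro x hx
    rw [uIcc_of_le (by linarith)] at hx
    simp only
    rw [max_eq_right (by linarith [hx.1])]
  have ia : IntervalIntegrable (fun x => l x * Real.sinh (Real.pi * (x - a) / D)) volume a b := by
    apply ContinuousOn.intervalIntegrable
    rw [uIcc_of_le hab]
    exact hl.mul csa.continuousOn
  have im : IntervalIntegrable (fun x => l x * Real.sinh (Real.pi * max 0 (x - s₁) / D)) volume
      a b := by
    apply ContinuousOn.intervalIntegrable
    rw [uIcc_of_le hab]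
    exact hl.mul csm.continuousOn
  rw [e1, ← intervalIntegral.integral_sub ia im]
  set k : ℝ → ℝ := fun x => Real.sinh (Real.pi * (x - a) / D) -
    Real.sinh (Real.pi * max 0 (x - s₁) / D) with hk
  have ck : Continuous k := csa.sub csm
  have e2 : (∫ x in a..b, (l x * Real.sinh (Real.pi * (x - a) / D) -
      l x * Real.sinh (Real.pi * max 0 (x - s₁) / D))) = ∫ x in a..b, l x * k x := by
    apply intervalIntegral.integral_congr
    intro x _
    simp only [hk]
    ring
  rw [e2]
  have hk0 : ∀ x, a ≤ x → 0 ≤ k x := by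
    intro x hx
    simp only [hk, sub_nonneg, Real.sinh_le_sinh]
    gcongr
    exact max_le (by linarith) (by linarith)
  have hk1 : ∀ x, a ≤ x → k x ≤ Real.sinh (Real.pi * (x - a) / D) := by
    intro x hx
    have : 0 ≤ Real.sinh (Real.pi * max 0 (x - s₁) / D) := by
      rw [Real.sinh_nonneg_iff]
      have := le_max_left 0 (x - s₁)
      positivity
    simp only [hk]
    linarith
  have hcosh1 : Real.cosh 1 ≤ 8 / 5 := by
    rw [Real.cosh_eq]
    have h3 := Real.exp_one_lt_d9
    have h4 : Real.exp (-1) ≤ 2 / 5 := by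
      rw [Real.exp_neg, inv_le_comm₀ (Real.exp_pos 1) (by norm_num)]
      have := Real.exp_one_gt_d9
      norm_num
      linarith
    linarith
  have hsinh : ∀ x, a ≤ x → x ≤ b → Real.sinh (Real.pi * (x - a) / D) ≤
      8 / 5 * (Real.pi * (x - a) / D) := by
    intro x h1 h2
    have h0 : 0 ≤ Real.pi * (x - a) / D := by
      have : 0 ≤ x - a := by linarith
      positivity
    have h3 : Real.pi * (x - a) / D ≤ 1 := by
      rw [div_le_one hD0]
      nlinarith
    have h4 := sinh_le_mul_cosh h0
    have h5 : Real.cosh (Real.pi * (x - a) / D) ≤ Real.cosh 1 := by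
      rw [Real.cosh_le_cosh, abs_of_nonneg h0, abs_of_pos one_pos]
      exact h3
    calc _ ≤ Real.pi * (x - a) / D * Real.cosh (Real.pi * (x - a) / D) := h4
      _ ≤ Real.pi * (x - a) / D * (8 / 5) := by gcongr; linarith
      _ = _ := by ring
  have hk2 : ∀ x, a ≤ x → x ≤ b → k x ≤ x - a := by
    intro x h1 h2
    refine (hk1 x h1).trans ((hsinh x h1 h2).trans ?_)
    have h0 : 0 ≤ x - a := by linarith
    rw [show 8 / 5 * (Real.pi * (x - a) / D) = (8 / 5 * Real.pi / D) * (x - a) by ring]
    have h3 : 8 / 5 * Real.pi / D ≤ 1 := by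
      rw [div_le_one hD0]
      linarith
    nlinarith
  have hk3 : ∀ x, a ≤ x → x ≤ b → k x ≤ 2 := by
    intro x h1 h2
    refine (hk1 x h1).trans ((hsinh x h1 h2).trans ?_)
    have h3 : Real.pi * (x - a) / D ≤ 1 := by
      rw [div_le_one hD0]
      nlinarith
    linarith
  have i1 : IntervalIntegrable (fun x => l x * k x) volume a 4 := by
    apply ContinuousOn.intervalIntegrable
    rw [uIcc_of_le (by linarith)]
    exact (hl.mono (Icc_subset_Icc le_rfl hb)).mul ck.continuousOn
  have i2 : IntervalIntegrable (fun x => l x * k x) volume 4 b := by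
    apply ContinuousOn.intervalIntegrable
    rw [uIcc_of_le hb]
    exact (hl.mono (Icc_subset_Icc (by linarith) le_rfl)).mul ck.continuousOn
  rw [← intervalIntegral.integral_add_adjacent_intervals i1 i2]
  have h1 : -P ≤ ∫ x in a..4, l x * k x := by
    have i3 : IntervalIntegrable (fun x => (x - a) * max 0 (-l x)) volume a 4 := by
      apply ContinuousOn.intervalIntegrable
      rw [uIcc_of_le (by linarith)]
      apply ContinuousOn.mul (by fun_prop)
      exact ContinuousOn.sup continuousOn_const (hl.mono (Icc_subset_Icc le_rfl hb)).neg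
    have h2 : -(∫ x in a..4, (x - a) * max 0 (-l x)) ≤ ∫ x in a..4, l x * k x := by
      rw [← intervalIntegral.integral_neg]
      apply intervalIntegral.integral_mono_on (by linarith) i3.neg i1
      intro x hx
      have h3 := hk0 x hx.1
      have h4 := hk2 x hx.1 (by linarith [hx.2])
      have h5 := le_max_left 0 (-l x)
      have h6 := le_max_right 0 (-l x)
      show -((x - a) * max 0 (-l x)) ≤ l x * k x
      have h7 : -l x * k x ≤ max 0 (-l x) * k x := mul_le_mul_of_nonneg_right h6 h3
      have h8 : max 0 (-l x) * k x ≤ max 0 (-l x) * (x - a) := mul_le_mul_of_nonneg_left h4 h5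
      linarith
    linarith
  have h2 : -(3 / 2 * b) ≤ ∫ x in (4 : ℝ)..b, l x * k x := by
    have h3 : (∫ _x in (4 : ℝ)..b, (-(3 / 2) : ℝ)) ≤ ∫ x in (4 : ℝ)..b, l x * k x := by
      apply intervalIntegral.integral_mono_on hb (by simp) i2
      intro x hx
      have h4 := hk0 x (by linarith [hx.1])
      have h5 := hk3 x (by linarith [hx.1]) hx.2
      have h6 := abs_le.1 (hl2 x hx)
      nlinarith
    rw [intervalIntegral.integral_const, smul_eq_mul] at h3
    linarith
  linarith

end Pool.Agent.H18.PZ
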