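import Pool.Agent.H18.PZ.NLb
import Pool.Agent.H18.PZ.JIa

/-!
Module NL of MP_9f0eeb_nt (positive proportion): the core inequality on a generic rectangle.
-/

set_option autoImplicit false

open Complex MeasureTheory Set Filter Topology

namespace Pool.Agent.H18.PZ

open Pool.Agent.H28.MZ
open Pool.Agent.H23.GLH (PrimChar)

lemma nl_core (hCA : T_CA) (hOR : T_OR) (π : PrimChar) {T b T₁ D η P : ℝ} (hT : 20 ≤ T)
    (hb : b = 8 * Real.log T) (hb4 : 4 ≤ b) (hbD : Real.pi * b ≤ D) (h1 : T ≤ T₁)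
    (hTD : T / 2 ≤ D) (h2 : T₁ + D ≤ 2 * T) (hη : 1 / 8 ≤ η) (hη2 : η ≤ 1 / 4)
    (hgen1 : ∀ t ∈ Icc T₁ (T₁ + D), π.L (((1 / 2 - η : ℝ) : ℂ) + t * I) ≠ 0 ∧
      π.L (((1 / 2 + η : ℝ) : ℂ) + t * I) ≠ 0)
    (hgen2 : ∀ x ∈ Icc (1 / 2 - η) b, π.L (x + T₁ * I) ≠ 0 ∧
      π.L (x + ((T₁ + D : ℝ) : ℂ) * I) ≠ 0)
    (hXA : ∀ t ∈ Icc T₁ (T₁ + D), η * Real.log T - 3 ≤
      Real.log ‖π.L (((1 / 2 - η : ℝ) : ℂ) + t * I)‖ -
        Real.log ‖π.L (((1 / 2 + η : ℝ) : ℂ) + t * I)‖)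
    (hLH1 : ∫ x in (1 / 2 - η)..4, (x - (1 / 2 - η)) *
      max 0 (-Real.log ‖π.L (x + T₁ * I)‖) ≤ P)
    (hLH2 : ∫ x in (1 / 2 - η)..4, (x - (1 / 2 - η)) *
      max 0 (-Real.log ‖π.L (x + ((T₁ + D : ℝ) : ℂ) * I)‖) ≤ P)
    (Z : Finset ℂ)
    (hZ : ∀ z : ℂ, z ∈ Z ↔ 0 < z.re ∧ z.re < 1 ∧ T₁ < z.im ∧ z.im < T₁ + D ∧ π.L z = 0) :
    (η * Real.log T - 3) * (2 * D / Real.pi) - 2 * P - 3 * b - 1 ≤
      2 * Real.pi * (η * Real.cosh (Real.pi / D) ^ 2 *
        ∑ z ∈ Z, (analyticOrderNatAt π.L z : ℝ) * Real.sin (Real.pi * (z.im - T₁) / D)) := by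
  have hpi := Real.pi_pos
  have hpi3 := Real.pi_lt_d2
  have hD0 : 0 < D := by linarith
  have hT0 : 0 < T := by linarith
  have hle : T₁ ≤ T₁ + D := by linarith
  have hDD : T₁ + D - T₁ = D := by ring
  have hb2 : (2 : ℝ) ^ (-b) ≤ 1 / T ^ 4 := by
    have h3 : (1 : ℝ) / T ^ 4 = Real.exp (-(4 * Real.log T)) := by
      rw [Real.exp_neg, show 4 * Real.log T = Real.log (T ^ 4) by rw [Real.log_pow]; norm_num,
        Real.exp_log (by positivity), one_div]
    rw [h3, Real.rpow_def_of_pos (by norm_num), Real.exp_le_exp, hb]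
    have h4 := Real.log_two_gt_d9
    have h5 : 0 ≤ Real.log T := Real.log_nonneg (by linarith)
    nlinarith
  have hst : ∀ z : ℂ, T₁ < z.im → π.L z = 0 → 0 < z.re ∧ z.re < 1 := fun z h3 h4 =>
    Pool.Agent.H15.LI.ze π z (by linarith) h4
  have hright : ∀ t ∈ Icc T₁ (T₁ + D), π.L (b + t * I) ≠ 0 ∧
      |Real.log ‖π.L (b + t * I)‖| ≤ 12 * (2 : ℝ) ^ (-b) ∧
      ‖deriv π.L (b + t * I)‖ ≤ 12 * (2 : ℝ) ^ (-b) * ‖π.L (b + t * I)‖ :=
    fun t ht => L_right π hb4 (by linarith [ht.1])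
  have hdiff : ∀ s : ℂ, T₁ / 2 < s.im → DifferentiableAt ℂ π.L s := fun s hs =>
    diffL π (by linarith)
  obtain ⟨Za, hZa, hma⟩ := hCA π.L (1 / 2 - η) b T₁ (T₁ + D) (12 * (2 : ℝ) ^ (-b)) (by linarith)
    (by linarith) (by linarith) hdiff (fun t ht => (hgen1 t ht).1) hgen2 hright
  obtain ⟨Zs, hZs, hms⟩ := hCA π.L (1 / 2 + η) b T₁ (T₁ + D) (12 * (2 : ℝ) ^ (-b)) (by linarith)
    (by linarith) (by linarith) hdiff (fun t ht => (hgen1 t ht).2)
    (fun x hx => hgen2 x ⟨by linarith [hx.1], hx.2⟩) hright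
  rw [hDD] at hma hms
  rw [sum_right (by linarith) Z Za (fun z => (analyticOrderNatAt π.L z : ℝ)) hZ hZa hst] at hma
  rw [sum_right (by linarith) Z Zs (fun z => (analyticOrderNatAt π.L z : ℝ)) hZ hZs hst] at hms
  -- the error terms
  have herr : ∀ c : ℝ, 0 ≤ c → c ≤ b →
      (D + 2) * D * Real.cosh (Real.pi * (b - c) / D) * (12 * (2 : ℝ) ^ (-b)) ≤ 1 / 2 := by
    intro c hc0 hcb
    have h3 : Real.cosh (Real.pi * (b - c) / D) ≤ 2 := by
      have h0 : 0 ≤ Real.pi * (b - c) / D := by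
        have : 0 ≤ b - c := by linarith
        positivity
      have h4 : Real.cosh (Real.pi * (b - c) / D) ≤ Real.cosh 1 := by
        rw [Real.cosh_le_cosh, abs_of_nonneg h0, abs_of_pos one_pos, div_le_one hD0]
        nlinarith
      have h5 : Real.cosh 1 ≤ 2 := by
        rw [Real.cosh_eq]
        have h3 := Real.exp_one_lt_d9
        have h4 : Real.exp (-1) ≤ 1 := Real.exp_le_one_iff.2 (by norm_num)
        linarith
      linarith
    have h4 : 0 < Real.cosh (Real.pi * (b - c) / D) := Real.cosh_pos _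
    have h5 : 0 < (2 : ℝ) ^ (-b) := Real.rpow_pos_of_pos (by norm_num) _
    have h6 : D ≤ T := by linarith
    have h7 : (D + 2) * D ≤ (2 * T) * T := by
      have : D + 2 ≤ 2 * T := by linarith
      gcongr
    calc (D + 2) * D * Real.cosh (Real.pi * (b - c) / D) * (12 * (2 : ℝ) ^ (-b))
        ≤ ((2 * T) * T) * 2 * (12 * (1 / T ^ 4)) := by gcongr
      _ = 48 / T ^ 2 := by field_simp; ring
      _ ≤ 1 / 2 := by
          rw [div_le_div_iff₀ (by positivity) (by norm_num)]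
          nlinarith
  have hEa := herr (1 / 2 - η) (by linarith) (by linarith)
  have hEs := herr (1 / 2 + η) (by linarith) (by linarith)
  -- continuity
  have hcont : ∀ s : ℂ, T ≤ s.im → ContinuousAt π.L s := fun s hs =>
    (diffL π (by linarith)).continuousAt
  have cleft : ∀ c : ℝ, ContinuousOn (fun t : ℝ => π.L (c + t * I)) (Icc T₁ (T₁ + D)) := by
    intro c t ht
    have h3 : ContinuousAt π.L ((c : ℂ) + t * I) := hcont _ (by simpa using h1.trans ht.1)
    exact (h3.comp (f := fun t : ℝ => (c : ℂ) + t * I) (by fun_prop)).continuousWithinAt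
  have chor : ∀ y : ℝ, T ≤ y → Continuous (fun x : ℝ => π.L (x + y * I)) := by
    intro y hy
    rw [continuous_iff_continuousAt]
    intro x
    have h3 : ContinuousAt π.L ((x : ℂ) + y * I) := hcont _ (by simpa using hy)
    exact h3.comp (f := fun x : ℝ => (x : ℂ) + y * I) (by fun_prop)
  -- the left sides
  have csin : Continuous fun t : ℝ => Real.sin (Real.pi * (t - T₁) / D) := by fun_prop
  have hsin : ∀ y : ℝ, T₁ ≤ y → y ≤ T₁ + D → 0 ≤ Real.sin (Real.pi * (y - T₁) / D) := by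
    intro y h3 h4
    apply Real.sin_nonneg_of_nonneg_of_le_pi
    · have : 0 ≤ y - T₁ := by linarith
      positivity
    · rw [div_le_iff₀ hD0]
      nlinarith
  have hA : (η * Real.log T - 3) * (2 * D / Real.pi) ≤
      (∫ t in T₁..(T₁ + D), Real.log ‖π.L (((1 / 2 - η : ℝ) : ℂ) + t * I)‖ *
        Real.sin (Real.pi * (t - T₁) / D)) -
      ∫ t in T₁..(T₁ + D), Real.log ‖π.L (((1 / 2 + η : ℝ) : ℂ) + t * I)‖ *
        Real.sin (Real.pi * (t - T₁) / D) := by
    have i1 : IntervalIntegrable (fun t => Real.log ‖π.L (((1 / 2 - η : ℝ) : ℂ) + t * I)‖ *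
        Real.sin (Real.pi * (t - T₁) / D)) volume T₁ (T₁ + D) := by
      apply ContinuousOn.intervalIntegrable
      rw [uIcc_of_le hle]
      exact ((cleft _).norm.log fun t ht => norm_ne_zero_iff.2 (hgen1 t ht).1).mul
        csin.continuousOn
    have i2 : IntervalIntegrable (fun t => Real.log ‖π.L (((1 / 2 + η : ℝ) : ℂ) + t * I)‖ *
        Real.sin (Real.pi * (t - T₁) / D)) volume T₁ (T₁ + D) := by
      apply ContinuousOn.intervalIntegrable
      rw [uIcc_of_le hle]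
      exact ((cleft _).norm.log fun t ht => norm_ne_zero_iff.2 (hgen1 t ht).2).mul
        csin.continuousOn
    rw [← intervalIntegral.integral_sub i1 i2, ← integral_sin_D hD0,
      ← intervalIntegral.integral_const_mul]
    apply intervalIntegral.integral_mono_on hle ((csin.intervalIntegrable _ _).const_mul _)
      (i1.sub i2)
    intro t ht
    have h3 := hsin t ht.1 ht.2
    have h4 := hXA t ht
    calc (η * Real.log T - 3) * Real.sin (Real.pi * (t - T₁) / D)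
        ≤ (Real.log ‖π.L (((1 / 2 - η : ℝ) : ℂ) + t * I)‖ -
        Real.log ‖π.L (((1 / 2 + η : ℝ) : ℂ) + t * I)‖) * Real.sin (Real.pi * (t - T₁) / D) := by
          gcongr
      _ = _ := by ring
  -- the horizontal sides
  have hl34 : ∀ y : ℝ, T ≤ y → ∀ x ∈ Icc 4 b, |Real.log ‖π.L (x + y * I)‖| ≤ 3 / 4 := by
    intro y hy x hx
    refine (L_right π hx.1 (by linarith)).2.1.trans ?_
    have h3 : (2 : ℝ) ^ (-x) ≤ (2 : ℝ) ^ (-(4 : ℝ)) :=
      Real.rpow_le_rpow_of_exponent_le (by norm_num) (by linarith [hx.1])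
    have h4 : (2 : ℝ) ^ (-(4 : ℝ)) = 1 / 16 := by
      rw [show (-(4 : ℝ)) = ((-4 : ℤ) : ℝ) by norm_num, Real.rpow_intCast]
      norm_num
    rw [h4] at h3
    linarith
  have clog : ∀ y : ℝ, T ≤ y → (∀ x ∈ Icc (1 / 2 - η) b, π.L (x + y * I) ≠ 0) →
      ContinuousOn (fun x : ℝ => Real.log ‖π.L (x + y * I)‖) (Icc (1 / 2 - η) b) :=
    fun y hy hne => (chor y hy).continuousOn.norm.log fun x hx => norm_ne_zero_iff.2 (hne x hx)
  have c1 := clog T₁ h1 (fun x hx => (hgen2 x hx).1)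
  have c2 := clog (T₁ + D) (by linarith) (fun x hx => (hgen2 x hx).2)
  have hB1 := horiz (l := fun x : ℝ => Real.log ‖π.L (x + T₁ * I)‖) (a := 1 / 2 - η)
    (s₁ := 1 / 2 + η) (by linarith) (by linarith) (by linarith) (by linarith) hb4 hbD c1 hLH1
    (hl34 T₁ h1)
  have hB2 := horiz (l := fun x : ℝ => Real.log ‖π.L (x + ((T₁ + D : ℝ) : ℂ) * I)‖)
    (a := 1 / 2 - η)
    (s₁ := 1 / 2 + η) (by linarith) (by linarith) (by linarith) (by linarith) hb4 hbD c2 hLH2
    (hl34 (T₁ + D) (by linarith))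
  have hadd : ∀ c : ℝ, 1 / 2 - η ≤ c → c ≤ b →
      (∫ x in c..b, (Real.log ‖π.L (x + T₁ * I)‖ +
        Real.log ‖π.L (x + ((T₁ + D : ℝ) : ℂ) * I)‖) * Real.sinh (Real.pi * (x - c) / D)) =
      (∫ x in c..b, Real.log ‖π.L (x + T₁ * I)‖ * Real.sinh (Real.pi * (x - c) / D)) +
      ∫ x in c..b, Real.log ‖π.L (x + ((T₁ + D : ℝ) : ℂ) * I)‖ *
        Real.sinh (Real.pi * (x - c) / D) := by
    intro c hc hcb
    have csh : Continuous fun x : ℝ => Real.sinh (Real.pi * (x - c) / D) := by fun_prop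
    rw [← intervalIntegral.integral_add]
    · apply intervalIntegral.integral_congr
      intro x _
      simp only
      ring
    · apply ContinuousOn.intervalIntegrable
      rw [uIcc_of_le hcb]
      exact (c1.mono (Icc_subset_Icc hc le_rfl)).mul csh.continuousOn
    · apply ContinuousOn.intervalIntegrable
      rw [uIcc_of_le hcb]
      exact (c2.mono (Icc_subset_Icc hc le_rfl)).mul csh.continuousOn
  rw [hadd (1 / 2 - η) le_rfl (by linarith)] at hma
  rw [hadd (1 / 2 + η) (by linarith) (by linarith)] at hms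
  -- the symmetrisation
  have hsym := sum_symm (T₁ := T₁) (D := D) (η := η) hD0 (by linarith) (by linarith) Z
    (fun z => (analyticOrderNatAt π.L z : ℝ)) (fun z _ => Nat.cast_nonneg _)
    (fun z hz => ⟨((hZ z).1 hz).1.le, ((hZ z).1 hz).2.1.le⟩)
    (fun z hz => hsin z.im ((hZ z).1 hz).2.2.1.le ((hZ z).1 hz).2.2.2.1.le)
    (by
      intro z hz
      obtain ⟨h3, h4, h5, h6, h7⟩ := (hZ z).1 hz
      have him : 0 < z.im := by linarith
      obtain ⟨ho, -⟩ := hOR π z him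
      have hz0 : analyticOrderAt π.L z ≠ 0 :=
        ((anaL π z him).analyticOrderAt_ne_zero).2 h7
      have him2 : 0 < (1 - (starRingEnd ℂ) z).im := by simpa using him
      have h8 : π.L (1 - (starRingEnd ℂ) z) = 0 := by
        rw [ho] at hz0
        exact ((anaL π _ him2).analyticOrderAt_ne_zero).1 hz0
      refine (hZ _).2 ⟨?_, ?_, ?_, ?_, h8⟩
      · simpa using h4
      · simpa using h3
      · simpa using h5
      · simpa using h6)
    (by
      intro z hz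
      obtain ⟨h3, h4, h5, h6, h7⟩ := (hZ z).1 hz
      obtain ⟨ho, -⟩ := hOR π z (by linarith)
      simp only [analyticOrderNatAt, ho])
  have h3 := (abs_le.1 hma).1
  have h4 := (abs_le.1 hms).2
  have h5 := mul_le_mul_of_nonneg_left hsym (show (0 : ℝ) ≤ 2 * Real.pi by positivity)
  beta_reduce at h3 h4 h5 hB1 hB2
  linarith

end Pool.Agent.H18.PZ
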